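import Pool.Agent.H482R3.EB.Defs

set_option autoImplicit false

/-! Project EB: the statements (helper482). Every task is `theorem t_XXX : S_XXX`,
possibly from hypotheses `(h : S_YYY)`. -/

namespace Pool.Agent.H482R3.EB

open Pool.Agent.H482R3.EA (W inv ev PP xx evF cond1 cond2 cV cW LIdx Syl gOf iW iV letF valS
  Sys St Near InD Adm Act)

/-! ### groups -/

/-- universal property of `AR` -/
def S_LIFTR : Prop := ∀ (S G : Type) (_ : Group G) (m : S → S → ℕ) (f : S → G),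
  (∀ s t, s ≠ t → m s t ≠ 0 →
    ((alt s t (m s t)).map f).prod = ((alt t s (m s t)).map f).prod) →
  ∃ φ : AR m →* G, (∀ s, φ (gR m s) = f s) ∧ ∀ u : W S, φ (ev (gR m) u) = ev f u

/-- universal property of `AJ` -/
def S_LIFTJ : Prop := ∀ (V Wt G : Type) (_ : Group G) (c : V ⊕ Wt → V ⊕ Wt → ℕ)
  (f : V ⊕ Wt → G),
  (∀ s t, s ≠ t → cV c s t ≠ 0 →
    ((alt s t (cV c s t)).map (fun a => f (.inl a))).prod =
      ((alt t s (cV c s t)).map (fun a => f (.inl a))).prod) →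
  (∀ s t, s ≠ t → cW c s t ≠ 0 →
    ((alt s t (cW c s t)).map (fun a => f (.inr a))).prod =
      ((alt t s (cW c s t)).map (fun a => f (.inr a))).prod) →
  (∀ v w, c (.inl v) (.inr w) ≠ 0 → (f (.inl v) * f (.inr w)) ^ (c (.inl v) (.inr w)) =
    (f (.inr w) * f (.inl v)) ^ (c (.inl v) (.inr w))) →
  ∃ φ : AJ c →* G, (∀ s, φ (gJ c s) = f s) ∧ ∀ u : W (V ⊕ Wt), φ (ev (gJ c) u) = ev f u

/-- relations in `AR` and `AJ` -/
def S_RELR : Prop :=
  (∀ (S : Type) (m : S → S → ℕ) (s t : S), s ≠ t → m s t ≠ 0 →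
    ((alt s t (m s t)).map (gR m)).prod = ((alt t s (m s t)).map (gR m)).prod) ∧
  (∀ (V Wt : Type) (c : V ⊕ Wt → V ⊕ Wt → ℕ),
    (∀ s t, s ≠ t → cV c s t ≠ 0 →
      ((alt s t (cV c s t)).map (fun a => gJ c (.inl a))).prod =
        ((alt t s (cV c s t)).map (fun a => gJ c (.inl a))).prod) ∧
    (∀ s t, s ≠ t → cW c s t ≠ 0 →
      ((alt s t (cW c s t)).map (fun a => gJ c (.inr a))).prod =
        ((alt t s (cW c s t)).map (fun a => gJ c (.inr a))).prod) ∧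
    (∀ v w, c (.inl v) (.inr w) ≠ 0 →
      (gJ c (.inl v) * gJ c (.inr w)) ^ (c (.inl v) (.inr w)) =
        (gJ c (.inr w) * gJ c (.inl v)) ^ (c (.inl v) (.inr w))))

/-- total exponents -/
def S_TOT : Prop := ∀ (S : Type) (m : S → S → ℕ),
  (∀ u : W S, totg m (ev (gR m) u) = tot u) ∧
  (∀ g g' : AR m, totg m (g * g') = totg m g + totg m g') ∧
  (∀ g : AR m, totg m g⁻¹ = - totg m g) ∧
  (∀ (s : S) (n : ℤ), totg m (gR m s ^ n) = n) ∧
  (∀ u u' : W S, tot (u ++ u') = tot u + tot u') ∧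
  (∀ u : W S, tot (inv u) = - tot u)

/-- the words `wp s n` -/
def S_WPW : Prop := ∀ (S G : Type) (_ : Group G) (f : S → G) (s : S) (n : ℤ),
  ev f (wp s n) = f s ^ n ∧ tot (wp s n) = n ∧ ((wp s n).length : ℤ) = |n|

def S_SUR : Prop := ∀ (S : Type) (m : S → S → ℕ) (g : AR m), ∃ u : W S, ev (gR m) u = g

def S_RETJ : Prop := ∀ (V Wt : Type) (c : V ⊕ Wt → V ⊕ Wt → ℕ),
  (∀ u : W Wt, TR (cW c) u ↔ TJ c (iW u)) ∧ (∀ u : W V, TR (cV c) u ↔ TJ c (iV u))

/-- the geometric representation of a Coxeter group -/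
def S_GEO : Prop := ∀ (S : Type) (m : S → S → ℕ), Symm m → (∀ s t, s ≠ t → m s t ≠ 1) →
  ∃ (H : Type) (_ : Group H) (f : S → H), (∀ s, f s * f s = 1) ∧
    (∀ s t, s ≠ t → m s t ≠ 0 → (f s * f t) ^ (m s t) = 1) ∧ Function.Injective f

/-- the reflection cocycle with integer coefficients -/
def S_COC : Prop := ∀ (S H : Type) (_ : Group H) (m : S → S → ℕ) (f : S → H),
  (∀ s, f s * f s = 1) → (∀ s t, s ≠ t → m s t ≠ 0 → (f s * f t) ^ (m s t) = 1) →
  Function.Injective f → Tame m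

def S_TAME : Prop := ∀ (S : Type) (m : S → S → ℕ), Symm m → (∀ s t, s ≠ t → m s t ≠ 1) →
  Tame m

/-! ### geometry -/

def S_GGB : Prop := ∀ (V Wt : Type) (c : V ⊕ Wt → V ⊕ Wt → ℕ), Tame (cW c) →
  (∀ (l m : LnB c) (p q : PB c), l ≠ m → IB c p l → IB c q l → IB c p m →
    IB c q m → p = q) ∧
  (∀ (l m k : LnB c) (p q r : PB c), l ≠ m → m ≠ k → k ≠ l →
    IB c p l → IB c p m → IB c q m → IB c q k → IB c r k → IB c r l → p = q)

def S_LXB : Prop := ∀ (V Wt : Type)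
  (c : V ⊕ Wt → V ⊕ Wt → ℕ), Cross c → Tame (cV c) →
  (∀ (l : LnB c) (p : PB c) (n : ℤ), IB c p l → xB c l p ^ n = 1 → n = 0) ∧
  (∀ (l : LnB c) (p q : PB c) (a b : ℤ), IB c p l → IB c q l → p ≠ q →
    xB c l p ^ a * xB c l q ^ b = 1 → a = 0 ∧ b = 0) ∧
  (∀ (l : LnB c) (p q r : PB c) (a b d : ℤ), IB c p l → IB c q l → IB c r l →
    p ≠ q → q ≠ r → p ≠ r →
    xB c l p ^ a * xB c l q ^ b * xB c l r ^ d = 1 → a = 0 ∧ b = 0 ∧ d = 0)

def S_SYSB : Prop := ∀ (V Wt : Type) (_ : Nonempty V)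
  (c : V ⊕ Wt → V ⊕ Wt → ℕ), Cross c → Tame (cV c) → Tame (cW c) → SysOK c

section act
variable {V Wt : Type} (c : V ⊕ Wt → V ⊕ Wt → ℕ)
  (h : SysOK c) (A : Act (sysB c h))

/-- one letter acting from the right on `Ω × A_W` -/
noncomputable def stepB (x : A.Ω × AR (cW c)) (a : (V ⊕ Wt) × Bool) : A.Ω × AR (cW c) :=
  match a with
  | (.inl v, b) => (A.act x.1 (Sum.inl x.2 : LnB c)
      (if b then gR (cV c) v else (gR (cV c) v)⁻¹ : AR (cV c)), x.2)
  | (.inr w, b) => (x.1, x.2 * if b then gR (cW c) w else (gR (cW c) w)⁻¹)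

noncomputable def runB (u : W (V ⊕ Wt)) (x : A.Ω × AR (cW c)) : A.Ω × AR (cW c) :=
  u.foldl (stepB c h A) x

/-- value of a word over `W` in `A_W` -/
def gEl (g : W Wt) : AR (cW c) := ev (gR (cW c)) g

open Classical in
/-- state of a syllable -/
noncomputable def stO : Option (Syl V Wt) → St (sysB c h)
  | none => .none
  | some (.inl (g, v, _, _)) => .pt ((gEl c g, v) : PB c)
  | some (.inr (.inl (g, _))) => .ln (Sum.inl (gEl c g) : LnB c)
  | some (.inr (.inr (g, v, w, _))) =>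
      if hc : c (.inl v) (.inr w) ≠ 0 then
        .ln (Sum.inr ⟨(⟨(v, w), hc⟩ : LIdx c), QuotientGroup.mk (gEl c g)⟩ : LnB c)
      else .none

open Classical in
/-- line and group element of a syllable -/
noncomputable def lyO : Syl V Wt → Σ l : LnB c, LB c l
  | .inl (g, v, b, n) => ⟨Sum.inl (gEl c g),
      ((if b then gR (cV c) v else (gR (cV c) v)⁻¹) ^ n : AR (cV c))⟩
  | .inr (.inl (g, y)) => ⟨Sum.inl (gEl c g), (ev (gR (cV c)) y : AR (cV c))⟩
  | .inr (.inr (g, v, w, y)) =>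
      if hc : c (.inl v) (.inr w) ≠ 0 then
        ⟨Sum.inr ⟨(⟨(v, w), hc⟩ : LIdx c), QuotientGroup.mk (gEl c g)⟩,
          (ev (fun r : ℕ => xx (c (.inl v) (.inr w)) (((r % c (.inl v) (.inr w) : ℕ) : ℤ) +
            totg (cW c) (((QuotientGroup.mk (gEl c g) :
              AR (cW c) ⧸ Subgroup.zpowers (gR (cW c) w)).out)⁻¹ * gEl c g))) y :
            FreeGroup (Fin (c (.inl v) (.inr w))))⟩
      else ⟨Sum.inl 1, (1 : AR (cV c))⟩

/-- a line syllable has a finite label -/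
def okS : Syl V Wt → Prop
  | .inl _ => True
  | .inr (.inl _) => True
  | .inr (.inr (_, v, w, _)) => c (.inl v) (.inr w) ≠ 0

def okO : Option (Syl V Wt) → Prop
  | none => True
  | some a => okS c a

end act

/-- trivial words act trivially -/
def S_ACTB : Prop := ∀ (V Wt : Type)
  (c : V ⊕ Wt → V ⊕ Wt → ℕ) (_ : Cross c) (h : SysOK c) (A : Act (sysB c h))
  (u : W (V ⊕ Wt)), TJ c u → ∀ x, runB c h A u x = x

def S_VALB : Prop := ∀ (V Wt : Type)
  (c : V ⊕ Wt → V ⊕ Wt → ℕ) (_ : Cross c) (h : SysOK c) (A : Act (sysB c h)),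
  ∃ v : A.Ω × AR (cW c) → AJ c, v (A.one, 1) = 1 ∧
    ∀ (u : W (V ⊕ Wt)) x, v (runB c h A u x) = v x * ev (gJ c) u

/-- dictionary between words and the system -/
def S_DICB : Prop := ∀ (V Wt : Type)
  (c : V ⊕ Wt → V ⊕ Wt → ℕ) (h : SysOK c) (s : Option (Syl V Wt)) (g : W Wt) (v : V),
  okO c s →
  (NearW c g v s ↔ Near (sysB c h) ((gEl c g, v) : PB c) (stO c h s)) ∧
  (InDB c g s ↔ InD (sysB c h) (Sum.inl (gEl c g) : LnB c) (stO c h s)) ∧
  (∀ (w : Wt) (hc : c (.inl v) (.inr w) ≠ 0),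
    (InDL c g v w s ↔ InD (sysB c h)
      (Sum.inr ⟨(⟨(v, w), hc⟩ : LIdx c), QuotientGroup.mk (gEl c g)⟩ : LnB c) (stO c h s)))

/-- an admissible syllable gives the right state -/
def S_SEM1B : Prop := ∀ (V Wt : Type)
  (c : V ⊕ Wt → V ⊕ Wt → ℕ) (_ : Cross c) (h : SysOK c) (A : Act (sysB c h))
  (s : Option (Syl V Wt)) (a : Syl V Wt) (ω : A.Ω), okO c s → AdmW c s a →
  A.st ω = stO c h s →
  okS c a ∧ A.st (A.act ω (lyO c a).1 (lyO c a).2) = stO c h (some a)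

/-- every admissible prolongation comes from an admissible syllable -/
def S_SEM2B : Prop := ∀ (V Wt : Type)
  (c : V ⊕ Wt → V ⊕ Wt → ℕ) (_ : Cross c) (h : SysOK c)
  (s : Option (Syl V Wt)) (l : LnB c) (y : LB c l), okO c s →
  Adm (sysB c h) (stO c h s) l y → ∃ a : Syl V Wt, AdmW c s a ∧
    ∀ (A : Act (sysB c h)) (ω : A.Ω), A.act ω l y = A.act ω (lyO c a).1 (lyO c a).2

/-- the word of a syllable acts like the syllable -/
def S_RUNB : Prop := ∀ (V Wt : Type)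
  (c : V ⊕ Wt → V ⊕ Wt → ℕ) (_ : Cross c) (h : SysOK c) (A : Act (sysB c h))
  (a : Syl V Wt) (ω : A.Ω), okS c a →
  runB c h A (valS c a) (ω, 1) = (A.act ω (lyO c a).1 (lyO c a).2, 1)

def S_CERTB : Prop := ∀ (V Wt : Type) (_ : Nonempty V)
  (c : V ⊕ Wt → V ⊕ Wt → ℕ) (_ : Cross c) (_ : Tame (cV c)) (_ : Tame (cW c))
  (u : W (V ⊕ Wt)),
  ¬ TJ c u ↔ ∃ (code : List (Syl V Wt)) (g : W Wt), VC c none code ∧
    TJ c (inv u ++ code.flatMap (valS c) ++ iW g) ∧ (code ≠ [] ∨ ¬ TR (cW c) g)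

/-! ### computability -/

/-- the basic functions are computable -/
def S_BASB : Prop := ∀ n : ℕ,
  (Computable (fun u : W (Fin n) => inv u)) ∧
  (Computable (fun p : Fin n × (ℕ × ℕ) => wp p.1 ((p.2.1 : ℤ) - (p.2.2 : ℤ)))) ∧
  (Computable (fun p : Fin n × W (Fin n) => wp p.1 (-(tot p.2))))

def S_NEARB : Prop := ∀ (a b : ℕ) (c : Fin a ⊕ Fin b → Fin a ⊕ Fin b → ℕ),
  ComputablePred (TR (cW c)) →
  ComputablePred (fun p : (W (Fin b) × Fin a) × Option (Syl (Fin a) (Fin b)) =>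
    NearW c p.1.1 p.1.2 p.2)

def S_INDB : Prop := ∀ (a b : ℕ) (c : Fin a ⊕ Fin b → Fin a ⊕ Fin b → ℕ),
  ComputablePred (TR (cW c)) →
  ComputablePred (fun p : W (Fin b) × Option (Syl (Fin a) (Fin b)) => InDB c p.1 p.2) ∧
  ComputablePred (fun p : (W (Fin b) × Fin a × Fin b) × Option (Syl (Fin a) (Fin b)) =>
    InDL c p.1.1 p.1.2.1 p.1.2.2 p.2)

/-- bounds for the position of the near point on a line which is not in the state -/
def S_NBD : Prop := ∀ (V Wt : Type) (c : V ⊕ Wt → V ⊕ Wt → ℕ), Tame (cW c) →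
  ∀ (g : W Wt) (v : V) (w : Wt) (j : ℤ) (s : Option (Syl V Wt)), ¬ InDL c g v w s →
    c (.inl v) (.inr w) ≠ 0 → NearW c (g ++ wp w j) v s →
    |j| ≤ (g.length + (gOf s).length : ℕ)

/-- bounds on the `V` side -/
def S_VBD : Prop := ∀ (V : Type) (m : V → V → ℕ), Tame m → ∀ (y : W V),
  (∀ (v : V) (a : ℤ), TR m (y ++ wp v a) → |a| ≤ (y.length : ℤ)) ∧
  (∀ (v v' : V) (a b : ℤ), TR m (wp v a ++ y ++ wp v' b) →
    ∃ a' b' : ℤ, |a'| ≤ (y.length : ℤ) ∧ |b'| ≤ (y.length : ℤ) ∧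
      TR m (wp v a' ++ y ++ wp v' b'))

/-- admissibility of `bl` syllables is computable -/
def S_ADM2 : Prop := ∀ (a b : ℕ) (c : Fin a ⊕ Fin b → Fin a ⊕ Fin b → ℕ), Tame (cV c) →
  ComputablePred (TR (cV c)) → ComputablePred (TR (cW c)) →
  ComputablePred (fun p : Option (Syl (Fin a) (Fin b)) × (W (Fin b) × W (Fin a)) =>
    AdmW c p.1 (.inr (.inl p.2)))

/-- admissibility of `ll` syllables is computable -/
def S_ADM3 : Prop := ∀ (a b : ℕ) (c : Fin a ⊕ Fin b → Fin a ⊕ Fin b → ℕ), Cross c →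
  Tame (cW c) → ComputablePred (TR (cW c)) →
  ComputablePred (fun p : Option (Syl (Fin a) (Fin b)) ×
    (W (Fin b) × Fin a × Fin b × W ℕ) => AdmW c p.1 (.inr (.inr p.2)))

def S_ADMB : Prop := ∀ (a b : ℕ) (c : Fin a ⊕ Fin b → Fin a ⊕ Fin b → ℕ), Cross c →
  Tame (cV c) → Tame (cW c) → ComputablePred (TR (cV c)) → ComputablePred (TR (cW c)) →
  ComputablePred (fun p : Option (Syl (Fin a) (Fin b)) × Syl (Fin a) (Fin b) =>
    AdmW c p.1 p.2)

/-- the word problem of a finitely presented group is recursively enumerable -/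
def S_FPRE : Prop := ∀ (α : Type) (_ : Primcodable α) (_ : DecidableEq α) (R : List (W α)),
  REPred (fun u : W α =>
    ev (PresentedGroup.of : α → PresentedGroup {r | ∃ z ∈ R, r = FreeGroup.mk z}) u = 1)

def S_REB : Prop := ∀ (a b : ℕ) (c : Fin a ⊕ Fin b → Fin a ⊕ Fin b → ℕ), REPred (TJ c)

/-- the main step -/
def S_STEPB : Prop := ∀ (a b : ℕ) (c : Fin a ⊕ Fin b → Fin a ⊕ Fin b → ℕ), 0 < a →
  Cross c → Tame (cV c) → Tame (cW c) → ComputablePred (TR (cV c)) →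
  ComputablePred (TR (cW c)) → ComputablePred (TJ c)

/-! ### the final theorem, in the notation of the frozen statements -/

/-- the Artin group with labels `m` (`0` = infinity) -/
abbrev Art {n : ℕ} (m : Fin n → Fin n → ℕ) : Type :=
  PresentedGroup
    {r : FreeGroup (Fin n) | ∃ i j : Fin n, m i j ≠ 0 ∧
      r = ((CoxeterSystem.alternatingWord i j (m i j)).map FreeGroup.of).prod *
        (((CoxeterSystem.alternatingWord j i (m i j)).map FreeGroup.of).prod)⁻¹}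

/-- solvable word problem -/
def SolvWP {n : ℕ} (m : Fin n → Fin n → ℕ) : Prop :=
  ComputablePred (fun u : List (Fin n × Bool) =>
    (u.map (fun a => if a.2 then (PresentedGroup.of a.1 : Art m)
      else (PresentedGroup.of a.1)⁻¹)).prod = 1)

/-- `Art` and `AR` -/
def S_ARTR : Prop := ∀ (n : ℕ) (m : Fin n → Fin n → ℕ), (∀ i, m i i = 1) → Symm m →
  ∀ u : List (Fin n × Bool),
    ((u.map (fun a => if a.2 then (PresentedGroup.of a.1 : Art m)
      else (PresentedGroup.of a.1)⁻¹)).prod = 1 ↔ TR m u)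

/-- the joined labels -/
def jn {a b n : ℕ} (m : Fin n → Fin n → ℕ) (e : Fin a ⊕ Fin b ≃ Fin n) :
    Fin a ⊕ Fin b → Fin a ⊕ Fin b → ℕ
  | .inl i, .inl j => m (e (.inl i)) (e (.inl j))
  | .inr i, .inr j => m (e (.inr i)) (e (.inr j))
  | .inl i, .inr j => m (e (.inl i)) (e (.inr j)) / 2
  | .inr i, .inl j => m (e (.inr i)) (e (.inl j)) / 2

/-- renumbering -/
def S_RENUM : Prop := ∀ (a b n : ℕ) (m : Fin n → Fin n → ℕ) (e : Fin a ⊕ Fin b ≃ Fin n),
  Symm m → (∀ i j, Even (m (e (.inl i)) (e (.inr j)))) →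
  ∀ u : W (Fin n), TR m u ↔ TJ (jn m e) (u.map (fun x => (e.symm x.1, x.2)))

/-- COMBINATION THEOREM -/
def S_FINALB : Prop := ∀ (n : ℕ) (M : CoxeterMatrix (Fin n)) (a b : ℕ)
  (e : Fin a ⊕ Fin b ≃ Fin n),
  (∀ i j, Even (M (e (.inl i)) (e (.inr j))) ∧ M (e (.inl i)) (e (.inr j)) ≠ 2) →
  SolvWP (fun i j : Fin a => M (e (.inl i)) (e (.inl j))) →
  SolvWP (fun i j : Fin b => M (e (.inr i)) (e (.inr j))) → SolvWP M

/-- direct products -/
def S_PRODB : Prop := ∀ (n : ℕ) (M : CoxeterMatrix (Fin n)) (a b : ℕ)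
  (e : Fin a ⊕ Fin b ≃ Fin n), (∀ i j, M (e (.inl i)) (e (.inr j)) = 2) →
  SolvWP (fun i j : Fin a => M (e (.inl i)) (e (.inl j))) →
  SolvWP (fun i j : Fin b => M (e (.inr i)) (e (.inr j))) → SolvWP M

/-- dihedral Artin groups -/
def S_DIHB : Prop := ∀ (n : ℕ) (M : CoxeterMatrix (Fin n)), n ≤ 2 → SolvWP M

end Pool.Agent.H482R3.EB
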