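import Pool.Agent.H482R3.EB.TOT

set_option autoImplicit false
set_option linter.unusedSectionVars false

/-! Project EA, task ACTA: trivial words act trivially. -/

namespace Pool.Agent.H482R3.EB.ACTB

open Pool.Agent.H482R3.EB
open Pool.Agent.H482R3.EA (W inv ev PP xx evF cond1 cond2 cV cW LIdx Syl gOf iW iV letF valS
  Sys St Near InD Adm Act)

section
variable {V Wt : Type} (c : V ⊕ Wt → V ⊕ Wt → ℕ)
  (h : SysOK c) (A : Act (sysB c h))

noncomputable def actV (ω : A.Ω) (g : AR (cW c)) (y : AR (cV c)) : A.Ω :=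
  A.act ω (Sum.inl g : LnB c) y

noncomputable def actL (ω : A.Ω)
    (q : Σ i : LIdx c, AR (cW c) ⧸ Subgroup.zpowers (gR (cW c) i.1.2))
    (y : FreeGroup (Fin (c (.inl q.1.1.1) (.inr q.1.1.2)))) : A.Ω :=
  A.act ω (Sum.inr q : LnB c) y

lemma actV_mul (ω : A.Ω) (g : AR (cW c)) (y y' : AR (cV c)) :
    actV c h A (actV c h A ω g y) g y' = actV c h A ω g (y * y') :=
  A.act_mul ω (Sum.inl g : LnB c) y y'

lemma actV_one (ω : A.Ω) (g : AR (cW c)) : actV c h A ω g 1 = ω :=
  A.act_one ω (Sum.inl g : LnB c)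

lemma actL_mul (ω : A.Ω) (q : Σ i : LIdx c, AR (cW c) ⧸ Subgroup.zpowers (gR (cW c) i.1.2))
    (y y' : FreeGroup (Fin (c (.inl q.1.1.1) (.inr q.1.1.2)))) :
    actL c h A (actL c h A ω q y) q y' = actL c h A ω q (y * y') :=
  A.act_mul ω (Sum.inr q : LnB c) y y'

lemma actL_one (ω : A.Ω) (q : Σ i : LIdx c, AR (cW c) ⧸ Subgroup.zpowers (gR (cW c) i.1.2)) :
    actL c h A ω q 1 = ω :=
  A.act_one ω (Sum.inr q : LnB c)

lemma act_pt (ω : A.Ω) (v : V) (w : Wt) (hc : c (.inl v) (.inr w) ≠ 0)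
    (C : AR (cW c) ⧸ Subgroup.zpowers (gR (cW c) w)) (g : AR (cW c))
    (hg : (QuotientGroup.mk g : AR (cW c) ⧸ Subgroup.zpowers (gR (cW c) w)) = C) :
    actV c h A ω g (gR (cV c) v) =
      actL c h A ω ⟨(⟨(v, w), hc⟩ : LIdx c), C⟩
        (xx (c (.inl v) (.inr w)) (totg (cW c) ((C.out : AR (cW c))⁻¹ * g))) := by
  have := A.act_pt ω (Sum.inl g : LnB c) (Sum.inr ⟨(⟨(v, w), hc⟩ : LIdx c), C⟩ : LnB c)
    ((g, v) : PB c) 1 rfl ⟨rfl, hg⟩
  rw [zpow_one, zpow_one] at this
  exact this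

lemma step_inl_true (v : V) (x : A.Ω × AR (cW c)) :
    stepB c h A x (.inl v, true) = (actV c h A x.1 x.2 (gR (cV c) v), x.2) := rfl

lemma step_inl_false (v : V) (x : A.Ω × AR (cW c)) :
    stepB c h A x (.inl v, false) = (actV c h A x.1 x.2 (gR (cV c) v)⁻¹, x.2) := rfl

lemma step_inr_true (w : Wt) (x : A.Ω × AR (cW c)) :
    stepB c h A x (.inr w, true) = (x.1, x.2 * gR (cW c) w) := rfl

lemma step_inr_false (w : Wt) (x : A.Ω × AR (cW c)) :
    stepB c h A x (.inr w, false) = (x.1, x.2 * (gR (cW c) w)⁻¹) := rfl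

/-- the permutation of a positive letter -/
noncomputable def pos (s : V ⊕ Wt) : Equiv.Perm (A.Ω × AR (cW c)) where
  toFun x := stepB c h A x (s, true)
  invFun x := stepB c h A x (s, false)
  left_inv := by
    rintro ⟨ω, g⟩
    rcases s with v | w
    · simp only [step_inl_true, step_inl_false, actV_mul, mul_inv_cancel, actV_one]
    · simp only [step_inr_true, step_inr_false, mul_inv_cancel_right]
  right_inv := by
    rintro ⟨ω, g⟩
    rcases s with v | w
    · simp only [step_inl_true, step_inl_false, actV_mul, inv_mul_cancel, actV_one]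
    · simp only [step_inr_true, step_inr_false, inv_mul_cancel_right]

lemma pos_inl (v : V) (ω : A.Ω) (g : AR (cW c)) :
    pos c h A (.inl v) (ω, g) = (actV c h A ω g (gR (cV c) v), g) := rfl

lemma pos_inr (w : Wt) (ω : A.Ω) (g : AR (cW c)) :
    pos c h A (.inr w) (ω, g) = (ω, g * gR (cW c) w) := rfl

lemma alt_V (hR : S_RELR) (n : ℕ) : ∀ (s t : V) (ω : A.Ω) (g : AR (cW c)),
    MulOpposite.unop (((alt s t n).map (fun a => (MulOpposite.op (pos c h A (.inl a)) :
      (Equiv.Perm (A.Ω × AR (cW c)))ᵐᵒᵖ))).prod) (ω, g) =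
      (actV c h A ω g (((alt s t n).map (gR (cV c))).prod), g) := by
  induction n with
  | zero => intro s t ω g; simp [alt, actV_one]
  | succ n ih =>
    intro s t ω g
    have e : alt s t (n + 1) = s :: alt t s n := rfl
    rw [e, List.map_cons, List.prod_cons, List.map_cons, List.prod_cons, MulOpposite.unop_mul,
      Equiv.Perm.mul_apply, MulOpposite.unop_op, pos_inl, ih, actV_mul]

lemma alt_W (hR : S_RELR) (n : ℕ) : ∀ (s t : Wt) (ω : A.Ω) (g : AR (cW c)),
    MulOpposite.unop (((alt s t n).map (fun a => (MulOpposite.op (pos c h A (.inr a)) :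
      (Equiv.Perm (A.Ω × AR (cW c)))ᵐᵒᵖ))).prod) (ω, g) =
      (ω, g * ((alt s t n).map (gR (cW c))).prod) := by
  induction n with
  | zero => intro s t ω g; simp [alt]
  | succ n ih =>
    intro s t ω g
    have e : alt s t (n + 1) = s :: alt t s n := rfl
    rw [e, List.map_cons, List.prod_cons, List.map_cons, List.prod_cons, MulOpposite.unop_mul,
      Equiv.Perm.mul_apply, MulOpposite.unop_op, pos_inr, ih, mul_assoc]

/-- the product `x_d x_{d+1} ... x_{d+n-1}` -/
noncomputable def PX (k : ℕ) (d : ℤ) (n : ℕ) : FreeGroup (Fin k) :=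
  (List.ofFn fun r : Fin n => xx k (d + (r : ℕ))).prod

lemma PX_zero (k : ℕ) (d : ℤ) : PX k d 0 = 1 := by simp [PX]

lemma PX_succ (k : ℕ) (d : ℤ) (n : ℕ) : PX k d (n + 1) = PX k d n * xx k (d + n) := by
  unfold PX
  rw [List.ofFn_succ', List.concat_eq_append, List.prod_append]
  simp

lemma mk_mul_pow (w : Wt) (g : AR (cW c)) (n : ℕ) :
    (QuotientGroup.mk (g * gR (cW c) w ^ n) : AR (cW c) ⧸ Subgroup.zpowers (gR (cW c) w)) =
      QuotientGroup.mk g := by
  rw [QuotientGroup.eq]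
  simp only [mul_inv_rev, inv_mul_cancel_right]
  exact Subgroup.inv_mem _ (Subgroup.pow_mem _ (Subgroup.mem_zpowers _) n)

lemma pow_VW (hG : S_TOT) (v : V) (w : Wt) (hc : c (.inl v) (.inr w) ≠ 0) (n : ℕ)
    (ω : A.Ω) (g : AR (cW c)) :
    ((pos c h A (.inr w) * pos c h A (.inl v)) ^ n) (ω, g) =
      (actL c h A ω ⟨(⟨(v, w), hc⟩ : LIdx c), QuotientGroup.mk g⟩
        (PX (c (.inl v) (.inr w)) (totg (cW c) (((QuotientGroup.mk g :
          AR (cW c) ⧸ Subgroup.zpowers (gR (cW c) w)).out : AR (cW c))⁻¹ * g)) n),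
        g * gR (cW c) w ^ n) := by
  induction n with
  | zero => 
    rw [pow_zero, PX_zero, actL_one]; simp
  | succ n ih =>
    rw [pow_succ', Equiv.Perm.mul_apply, ih, Equiv.Perm.mul_apply, pos_inl, pos_inr,
      act_pt c h A _ v w hc (QuotientGroup.mk g) _ (mk_mul_pow c w g n), PX_succ]
    have e : totg (cW c) (((QuotientGroup.mk g :
          AR (cW c) ⧸ Subgroup.zpowers (gR (cW c) w)).out : AR (cW c))⁻¹ *
          (g * gR (cW c) w ^ n)) = totg (cW c) (((QuotientGroup.mk g :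
          AR (cW c) ⧸ Subgroup.zpowers (gR (cW c) w)).out : AR (cW c))⁻¹ * g) + n := by
      rw [← mul_assoc, totg_mul, ← zpow_natCast, totg_zpow]
    rw [e]
    refine Prod.ext ?_ ?_
    · exact actL_mul c h A ω ⟨(⟨(v, w), hc⟩ : LIdx c), QuotientGroup.mk g⟩ _ _
    · show g * gR (cW c) w ^ n * gR (cW c) w = g * gR (cW c) w ^ (n + 1)
      rw [pow_succ, mul_assoc]

lemma pow_WV (hG : S_TOT) (v : V) (w : Wt) (hc : c (.inl v) (.inr w) ≠ 0) (n : ℕ)
    (ω : A.Ω) (g : AR (cW c)) :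
    ((pos c h A (.inl v) * pos c h A (.inr w)) ^ n) (ω, g) =
      (actL c h A ω ⟨(⟨(v, w), hc⟩ : LIdx c), QuotientGroup.mk g⟩
        (PX (c (.inl v) (.inr w)) (totg (cW c) (((QuotientGroup.mk g :
          AR (cW c) ⧸ Subgroup.zpowers (gR (cW c) w)).out : AR (cW c))⁻¹ * g) + 1) n),
        g * gR (cW c) w ^ n) := by
  induction n with
  | zero => 
    rw [pow_zero, PX_zero, actL_one]; simp
  | succ n ih =>
    rw [pow_succ', Equiv.Perm.mul_apply, ih, Equiv.Perm.mul_apply, pos_inr, pos_inl]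
    have e2 : g * gR (cW c) w ^ n * gR (cW c) w = g * gR (cW c) w ^ (n + 1) := by
      rw [pow_succ, mul_assoc]
    rw [e2, act_pt c h A _ v w hc (QuotientGroup.mk g) _ (mk_mul_pow c w g (n + 1)), PX_succ]
    have e : totg (cW c) (((QuotientGroup.mk g :
          AR (cW c) ⧸ Subgroup.zpowers (gR (cW c) w)).out : AR (cW c))⁻¹ *
          (g * gR (cW c) w ^ (n + 1))) = totg (cW c) (((QuotientGroup.mk g :
          AR (cW c) ⧸ Subgroup.zpowers (gR (cW c) w)).out : AR (cW c))⁻¹ * g) + 1 + n := by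
      rw [← mul_assoc, totg_mul, ← zpow_natCast, totg_zpow]
      push_cast
      ring
    rw [e]
    refine Prod.ext ?_ rfl
    exact actL_mul c h A ω ⟨(⟨(v, w), hc⟩ : LIdx c), QuotientGroup.mk g⟩ _ _

lemma PX_full (hX : EA.S_XX) (k : ℕ) (hk : 0 < k) (d : ℤ) : PX k d k = PP k :=
  (hX k hk).2.1 d

lemma rel_VW (hX : EA.S_XX) (hG : S_TOT) (v : V) (w : Wt) (hc : c (.inl v) (.inr w) ≠ 0) :
    (pos c h A (.inr w) * pos c h A (.inl v)) ^ (c (.inl v) (.inr w)) =
      (pos c h A (.inl v) * pos c h A (.inr w)) ^ (c (.inl v) (.inr w)) := by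
  ext1 ⟨ω, g⟩
  rw [pow_VW c h A hG v w hc, pow_WV c h A hG v w hc, PX_full hX _ (Nat.pos_of_ne_zero hc),
    PX_full hX _ (Nat.pos_of_ne_zero hc)]

noncomputable def fO (s : V ⊕ Wt) : (Equiv.Perm (A.Ω × AR (cW c)))ᵐᵒᵖ :=
  MulOpposite.op (pos c h A s)

lemma run_eq (u : W (V ⊕ Wt)) : ∀ x : A.Ω × AR (cW c),
    runB c h A u x = (MulOpposite.unop (ev (fO c h A) u)) x := by
  induction u with
  | nil => intro x; simp [runB, ev]
  | cons a u ih =>
    intro x
    have e1 : runB c h A (a :: u) x = runB c h A u (stepB c h A x a) := rfl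
    have e2 : ev (fO c h A) (a :: u) =
        (if a.2 then fO c h A a.1 else (fO c h A a.1)⁻¹) * ev (fO c h A) u := by
      simp [ev]
    rw [e1, ih, e2, MulOpposite.unop_mul, Equiv.Perm.mul_apply]
    congr 1
    obtain ⟨s, b⟩ := a
    cases b
    · rfl
    · rfl

end

theorem t_ACTB (hX : EA.S_XX) (hG : S_TOT) (hR : S_RELR) : S_ACTB := by
  intro V Wt c _ h A u hu x
  obtain ⟨ψ, -, hev⟩ := t_LIFTJ V Wt ((Equiv.Perm (A.Ω × AR (cW c)))ᵐᵒᵖ) inferInstance c
    (fO c h A)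
    (by
      intro s t hst hm
      apply MulOpposite.unop_injective
      apply Equiv.ext
      rintro ⟨ω, g⟩
      have e1 := alt_V c h A hR (cV c s t) s t ω g
      have e2 := alt_V c h A hR (cV c s t) t s ω g
      rw [hR.1 V (cV c) s t hst hm] at e1
      exact e1.trans e2.symm)
    (by
      intro s t hst hm
      apply MulOpposite.unop_injective
      apply Equiv.ext
      rintro ⟨ω, g⟩
      have e1 := alt_W c h A hR (cW c s t) s t ω g
      have e2 := alt_W c h A hR (cW c s t) t s ω g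
      rw [hR.1 Wt (cW c) s t hst hm] at e1
      exact e1.trans e2.symm)
    (by
      intro v w hc
      unfold fO
      rw [← MulOpposite.op_mul, ← MulOpposite.op_mul, ← MulOpposite.op_pow, ← MulOpposite.op_pow,
        rel_VW c h A hX hG v w hc])
  rw [run_eq, ← hev u, show ev (gJ c) u = 1 from hu, map_one]
  rfl

end Pool.Agent.H482R3.EB.ACTB
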