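import Pool.Agent.H482R3.EB.TOT

set_option autoImplicit false

/-! Task CERT (helper296): certificates of non triviality. -/

namespace Pool.Agent.H482R3.EB.CERT

open Pool.Agent.H482R3.EA (W inv ev PP xx evF cond1 cond2 cV cW LIdx Syl gOf iW iV letF valS
  Sys St Near InD Adm Act)

theorem CERT_vc {V Wt : Type} (c : V ⊕ Wt → V ⊕ Wt → ℕ)
    (l : List (Syl V Wt)) (s : Option (Syl V Wt)) (a a' : Syl V Wt) (h1 : VC c s (l ++ [a]))
    (h2 : AdmW c (some a) a') : VC c s (l ++ [a] ++ [a']) := by
  induction l generalizing s with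
  | nil => exact ⟨h1.1, h2, trivial⟩
  | cons b l ih => exact ⟨h1.1, ih (some b) h1.2⟩

section

variable {V Wt : Type} (c : V ⊕ Wt → V ⊕ Wt → ℕ)
  (h : SysOK c) (A : Act (sysB c h))

theorem CERT_append (u u' : W (V ⊕ Wt)) (x : A.Ω × AR (cW c)) :
    runB c h A (u ++ u') x = runB c h A u' (runB c h A u x) := by
  unfold runB
  rw [List.foldl_append]

theorem CERT_iW (g : W Wt) (ω : A.Ω) (g0 : AR (cW c)) :
    runB c h A (iW g) (ω, g0) = (ω, g0 * gEl c g) := by
  induction g generalizing g0 with
  | nil => simp [runB, iW, gEl, ev]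
  | cons a g ih =>
    have e1 : (iW (a :: g) : W (V ⊕ Wt)) = [(Sum.inr a.1, a.2)] ++ iW g := rfl
    rw [e1, CERT_append]
    have e2 : runB c h A [(Sum.inr a.1, a.2)] (ω, g0) =
        (ω, g0 * if a.2 then gR (cW c) a.1 else (gR (cW c) a.1)⁻¹) := rfl
    rw [e2, ih]
    have e3 : gEl c (a :: g) = (if a.2 then gR (cW c) a.1 else (gR (cW c) a.1)⁻¹) * gEl c g := by
      simp [gEl, ev]
    rw [e3, mul_assoc]

theorem CERT_stO (a : Syl V Wt) (ha : okS c a) : stO c h (some a) ≠ .none := by
  rcases a with ⟨g, v, b, n⟩ | ⟨g, y⟩ | ⟨g, v, w, y⟩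
  · simp [stO]
  · simp [stO]
  · have hc : c (.inl v) (.inr w) ≠ 0 := ha
    simp only [stO]
    rw [dif_pos hc]
    simp

end

theorem t_CERTB (hN : EA.S_NFT) (hY : S_SYSB) (hA : S_ACTB) (hL : S_VALB) (h1 : S_SEM1B)
    (h2 : S_SEM2B) (hR : S_RUNB) (hV : EA.S_EV) (hJ : S_SUR) (hT : S_RETJ) : S_CERTB := by
  intro V Wt nV c hC tV tW u
  have h : SysOK c := hY V Wt nV c hC tV tW
  obtain ⟨A⟩ := hN (sysB c h)
  obtain ⟨v, hv1, hv⟩ := hL V Wt c hC h A
  obtain ⟨ev1, ev2, -⟩ := hV (V ⊕ Wt) (AJ c) inferInstance (gJ c)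
  have act := hA V Wt c hC h A
  have star1 : ∀ u u' : W (V ⊕ Wt), runB c h A u (A.one, 1) = runB c h A u' (A.one, 1) →
      ev (gJ c) u = ev (gJ c) u' := by
    intro u u' e
    have e1 := hv u (A.one, 1)
    have e2 := hv u' (A.one, 1)
    rw [hv1, one_mul] at e1 e2
    rw [← e1, ← e2, e]
  have star2 : ∀ u u' : W (V ⊕ Wt), ev (gJ c) u = ev (gJ c) u' →
      runB c h A u (A.one, 1) = runB c h A u' (A.one, 1) := by
    intro u u' e
    have t1 : TJ c (inv u' ++ u) := by
      unfold TJ
      rw [ev1, ev2, e]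
      exact inv_mul_cancel _
    have t2 : TJ c (u' ++ inv u') := by
      unfold TJ
      rw [ev1, ev2]
      exact mul_inv_cancel _
    have e1 := act (inv u' ++ u) t1 (runB c h A u' (A.one, 1))
    have e2 := act (u' ++ inv u') t2 (A.one, 1)
    rw [CERT_append] at e1 e2
    rw [← CERT_append] at e2
    rw [CERT_append] at e2
    rw [e2] at e1
    exact e1
  constructor
  · intro hnt
    -- the normal form of `u`
    have hgen : ∀ ω : A.Ω, ∃ (code : List (Syl V Wt)) (s : Option (Syl V Wt)),
        VC c none code ∧ (∀ a, AdmW c s a → VC c none (code ++ [a])) ∧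
        runB c h A (code.flatMap (valS c)) (A.one, 1) = (ω, 1) ∧ A.st ω = stO c h s ∧
        okO c s := by
      refine A.gen _ ?_ ?_
      · exact ⟨[], none, trivial, fun a ha => ⟨ha, trivial⟩, rfl, A.st_one, trivial⟩
      · intro ω l y hω hadm
        obtain ⟨code, s, k1, k2, k3, k4, k5⟩ := hω
        rw [k4] at hadm
        obtain ⟨a, ha, hact⟩ := h2 V Wt c hC h s l y k5 hadm
        obtain ⟨hok, hst⟩ := h1 V Wt c hC h A s a ω k5 ha k4
        have hrun := hR V Wt c hC h A a ω hok
        refine ⟨code ++ [a], some a, k2 a ha, ?_, ?_, ?_, hok⟩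
        · intro a' ha'
          exact CERT_vc c code none a a' (k2 a ha) ha'
        · rw [List.flatMap_append, CERT_append, k3]
          have e1 : [a].flatMap (valS c) = valS c a := by simp
          rw [e1, hrun]
          have e2 := hact A ω
          rw [e2]
        · have e2 := hact A ω
          rw [e2]
          exact hst
    obtain ⟨code, s, k1, -, k3, -, -⟩ := hgen (runB c h A u (A.one, 1)).1
    obtain ⟨g, hg⟩ := hJ Wt (cW c) (runB c h A u (A.one, 1)).2
    have hrun : runB c h A (code.flatMap (valS c) ++ iW g) (A.one, 1) = runB c h A u (A.one, 1) := by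
      rw [CERT_append, k3, CERT_iW, one_mul]
      have e1 : gEl c g = (runB c h A u (A.one, 1)).2 := hg
      rw [e1]
    have hev := star1 _ _ hrun
    refine ⟨code, g, k1, ?_, ?_⟩
    · unfold TJ
      rw [List.append_assoc, ev1, ev2, hev]
      exact inv_mul_cancel _
    · by_contra hcon
      rw [not_or, not_not, not_not] at hcon
      obtain ⟨c1, c2⟩ := hcon
      have c3 : TJ c (iW g) := (hT V Wt c).1 g |>.1 c2
      apply hnt
      unfold TJ
      rw [← hev, c1]
      exact c3
  · rintro ⟨code, g, k1, k2, k3⟩ htriv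
    have key : ∀ (code : List (Syl V Wt)) (s : Option (Syl V Wt)) (ω : A.Ω), VC c s code →
        okO c s → A.st ω = stO c h s → ∃ (ω' : A.Ω) (s' : Option (Syl V Wt)),
        runB c h A (code.flatMap (valS c)) (ω, 1) = (ω', 1) ∧ A.st ω' = stO c h s' ∧
        okO c s' ∧ (s' = none → code = [] ∧ s = none) := by
      intro code
      induction code with
      | nil =>
        intro s ω _ ho hs
        exact ⟨ω, s, rfl, hs, ho, fun e => ⟨rfl, e⟩⟩
      | cons a l ih =>
        intro s ω hvc ho hs
        obtain ⟨hok, hst⟩ := h1 V Wt c hC h A s a ω ho hvc.1 hs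
        have hrun := hR V Wt c hC h A a ω hok
        obtain ⟨ω', s', m1, m2, m3, m4⟩ := ih (some a) _ hvc.2 hok hst
        refine ⟨ω', s', ?_, m2, m3, ?_⟩
        · rw [List.flatMap_cons, CERT_append, hrun]
          exact m1
        · intro e
          have := (m4 e).2
          simp at this
    obtain ⟨ω', s', m1, m2, m3, m4⟩ := key code none A.one k1 trivial A.st_one
    have e1 : ev (gJ c) (code.flatMap (valS c) ++ iW g) = ev (gJ c) [] := by
      have k2' : ev (gJ c) (inv u ++ code.flatMap (valS c) ++ iW g) = 1 := k2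
      rw [List.append_assoc, ev1, ev2] at k2'
      have t' : ev (gJ c) u = 1 := htriv
      rw [t', inv_one, one_mul] at k2'
      rw [k2']
      simp [ev]
    have e2 := star2 _ _ e1
    rw [CERT_append, m1, CERT_iW, one_mul] at e2
    have e3 : runB c h A [] (A.one, 1) = (A.one, 1) := rfl
    rw [e3] at e2
    have e4 : ω' = A.one := congrArg Prod.fst e2
    have e5 : gEl c g = 1 := congrArg Prod.snd e2
    have e6 : s' = none := by
      cases s' with
      | none => rfl
      | some a =>
        exfalso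
        apply CERT_stO c h a m3
        rw [← m2, e4]
        exact A.st_one
    have e7 := (m4 e6).1
    rcases k3 with k3 | k3
    · exact k3 e7
    · exact k3 e5

end Pool.Agent.H482R3.EB.CERT
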