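import Pool.Agent.H482R3.EB.LIFTR

set_option autoImplicit false

namespace Pool.Agent.H482R3.EB

open Pool.Agent.H482R3.EA (W inv ev)

namespace COCaux

open Classical in
noncomputable def dl {H : Type} (h k : H) : ℤ := if h = k then 1 else 0

section
variable {S H : Type} [Group H] (f : S → H) (h2 : ∀ s, f s * f s = 1)

include h2 in
lemma finv (s : S) : (f s)⁻¹ = f s := inv_eq_of_mul_eq_one_right (h2 s)

lemma conj_eq_iff (g h k : H) : g * h * g⁻¹ = k ↔ h = g⁻¹ * k * g := by
  constructor
  · rintro rfl; group
  · rintro rfl; group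

/-- the permutation of a letter -/
noncomputable def th (s : S) : Equiv.Perm (H × ℤ) where
  toFun p := (f s * p.1 * (f s)⁻¹, p.2 + dl p.1 (f s))
  invFun p := ((f s)⁻¹ * p.1 * f s, p.2 - dl p.1 (f s))
  left_inv := by
    rintro ⟨h, n⟩
    have e : dl (f s * h * (f s)⁻¹) (f s) = dl h (f s) := by
      unfold dl
      congr 1
      rw [conj_eq_iff]
      simp
    simp only [e]
    ext
    · simp [mul_assoc]
    · simp
  right_inv := by
    rintro ⟨h, n⟩
    have e : dl ((f s)⁻¹ * h * f s) (f s) = dl h (f s) := by
      unfold dl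
      congr 1
      rw [eq_iff_iff]
      constructor
      · intro h1
        have : h = f s * ((f s)⁻¹ * h * f s) * (f s)⁻¹ := by group
        rw [h1] at this
        rw [this]; group
      · rintro rfl; group
    simp only [e]
    ext
    · simp [mul_assoc]
    · simp

lemma th_apply (s : S) (h : H) (n : ℤ) :
    th f s (h, n) = (f s * h * (f s)⁻¹, n + dl h (f s)) := rfl

lemma th_inv_apply (s : S) (h : H) (n : ℤ) :
    (th f s)⁻¹ (h, n) = ((f s)⁻¹ * h * f s, n - dl h (f s)) := rfl

open Classical in
lemma th_zpow (s : S) (a : ℤ) : ∀ (h : H) (n : ℤ),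
    (th f s ^ a) (h, n) = (f s ^ a * h * (f s ^ a)⁻¹, n + if h = f s then a else 0) := by
  induction a using Int.induction_on with
  | zero => intro h n; simp
  | succ a ih =>
    intro h n
    rw [zpow_add_one, Equiv.Perm.mul_apply, th_apply, ih]
    have e : (f s * h * (f s)⁻¹ = f s) ↔ h = f s := by
      rw [conj_eq_iff]; simp
    ext
    · simp only
      rw [zpow_add_one]
      group
    · simp only [e, dl]
      split_ifs <;> ring
  | pred a ih =>
    intro h n
    rw [zpow_sub_one, Equiv.Perm.mul_apply, th_inv_apply, ih]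
    have e : ((f s)⁻¹ * h * f s = f s) ↔ h = f s := by
      constructor
      · intro h1
        have : h = f s * ((f s)⁻¹ * h * f s) * (f s)⁻¹ := by group
        rw [h1] at this
        rw [this]; group
      · rintro rfl; group
    ext
    · simp only
      rw [zpow_sub_one]
      group
    · simp only [e, dl]
      split_ifs <;> ring

/-- alternating words with last letter `x` -/
def altE : S → S → ℕ → List S
  | _, _, 0 => []
  | x, y, n + 1 => altE y x n ++ [x]

lemma altE_cons (n : ℕ) : ∀ x y : S,
    altE x y (n + 1) = (if Even n then x else y) :: altE x y n := by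
  induction n with
  | zero => intro x y; simp [altE]
  | succ n ih =>
    intro x y
    have h1 : altE x y (n + 1 + 1) = altE y x (n + 1) ++ [x] := rfl
    rw [h1, ih y x]
    have h3 : altE x y (n + 1) = altE y x n ++ [x] := rfl
    rw [List.cons_append, ← h3]
    congr 1
    by_cases hn : Even n
    · rw [if_pos hn, if_neg (by rw [Nat.even_add_one]; exact fun h => h hn)]
    · rw [if_neg hn, if_pos (by rw [Nat.even_add_one]; exact hn)]

lemma alt_altE (n : ℕ) : ∀ s t : S, alt s t n = if Even n then altE t s n else altE s t n := by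
  induction n with
  | zero => intro s t; simp [alt, altE]
  | succ n ih =>
    intro s t
    have h1 : alt s t (n + 1) = s :: alt t s n := rfl
    rw [h1, ih t s]
    by_cases hn : Even n
    · rw [if_pos hn, if_neg (by rw [Nat.even_add_one]; exact fun h => h hn), altE_cons,
        if_pos hn]
    · rw [if_neg hn, if_pos (by rw [Nat.even_add_one]; exact hn), altE_cons, if_neg hn]

include h2 in
lemma prod_altE (k : ℕ) : ∀ x y : S,
    ((altE x y k).map f).prod⁻¹ * ((altE y x k).map f).prod = (f x * f y) ^ k := by
  induction k with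
  | zero => intro x y; simp [altE]
  | succ k ih =>
    intro x y
    have h1 : altE x y (k + 1) = altE y x k ++ [x] := rfl
    have h3 : altE y x (k + 1) = altE x y k ++ [y] := rfl
    rw [h1, h3, List.map_append, List.map_append, List.prod_append, List.prod_append]
    simp only [List.map_cons, List.map_nil, List.prod_cons, List.prod_nil, mul_one, mul_inv_rev]
    rw [finv f h2 x]
    have := ih y x
    calc f x * ((altE y x k).map f).prod⁻¹ * (((altE x y k).map f).prod * f y)
        = f x * (((altE y x k).map f).prod⁻¹ * ((altE x y k).map f).prod) * f y := by group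
      _ = f x * (f y * f x) ^ k * f y := by rw [this]
      _ = (f x * f y) ^ (k + 1) := by
          clear this ih h1 h3
          induction k with
          | zero => simp
          | succ k ih =>
            rw [pow_succ (f x * f y), ← ih, pow_succ]
            group

lemma fst_prod (l : List S) : ∀ (h : H) (n : ℤ),
    ((l.map (th f)).prod (h, n)).1 = (l.map f).prod * h * ((l.map f).prod)⁻¹ := by
  induction l with
  | nil => intro h n; simp
  | cons s l ih =>
    intro h n
    rw [List.map_cons, List.prod_cons, Equiv.Perm.mul_apply, List.map_cons, List.prod_cons]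
    have : (l.map (th f)).prod (h, n) =
      (((l.map (th f)).prod (h, n)).1, ((l.map (th f)).prod (h, n)).2) := rfl
    rw [this, th_apply, ih]
    simp [mul_assoc]

include h2 in
lemma snd_altE (k : ℕ) : ∀ (x y : S) (h : H) (n : ℤ),
    (((altE x y k).map (th f)).prod (h, n)).2 =
      n + ∑ i ∈ Finset.range k, dl h ((f x * f y) ^ i * f x) := by
  induction k with
  | zero => intro x y h n; simp [altE]
  | succ k ih =>
    intro x y h n
    have h1 : altE x y (k + 1) = altE y x k ++ [x] := rfl
    rw [h1, List.map_append, List.prod_append, Equiv.Perm.mul_apply]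
    simp only [List.map_cons, List.map_nil, List.prod_cons, List.prod_nil, mul_one]
    rw [th_apply, ih, Finset.sum_range_succ']
    have e : ∀ i, dl (f x * h * (f x)⁻¹) ((f y * f x) ^ i * f y) =
        dl h ((f x * f y) ^ (i + 1) * f x) := by
      intro i
      unfold dl
      congr 1
      rw [conj_eq_iff, finv f h2 x]
      have e2 : f x * ((f y * f x) ^ i * f y) * f x = (f x * f y) ^ (i + 1) * f x := by
        congr 1
        rw [← mul_assoc]
        induction i with
        | zero => simp
        | succ i ih2 =>
          rw [pow_succ (f x * f y), ← ih2, pow_succ]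
          group
      rw [e2]
    rw [Finset.sum_congr rfl (fun i _ => e i)]
    simp only [pow_zero, one_mul]
    ring

include h2 in
lemma sum_refl (x y : S) (M : ℕ) (hM : (f x * f y) ^ M = 1) (h : H) :
    ∑ i ∈ Finset.range M, dl h ((f y * f x) ^ i * f y) =
      ∑ i ∈ Finset.range M, dl h ((f x * f y) ^ i * f x) := by
  rw [← Finset.sum_range_reflect]
  apply Finset.sum_congr rfl
  intro i hi
  have hi' := Finset.mem_range.1 hi
  congr 1
  set ρ := f x * f y with hρ
  have h3 : f y * f x = ρ⁻¹ := by
    rw [hρ, mul_inv_rev, finv f h2 x, finv f h2 y]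
  have h4 : f y = ρ⁻¹ * f x := by
    rw [← h3, mul_assoc, h2 x, mul_one]
  rw [h3]
  conv_lhs => rw [h4]
  have h5 : ρ⁻¹ ^ (M - 1 - i) * ρ⁻¹ = ρ ^ i := by
    rw [← pow_succ, inv_pow, inv_eq_iff_mul_eq_one, ← pow_add]
    rw [show M - 1 - i + 1 + i = M by omega, hM]
  rw [← mul_assoc, h5]

include h2 in
lemma braid (x y : S) (M : ℕ) (hM : (f x * f y) ^ M = 1) :
    ((altE x y M).map (th f)).prod = ((altE y x M).map (th f)).prod := by
  have hP : ((altE x y M).map f).prod = ((altE y x M).map f).prod := by
    have := prod_altE f h2 M x y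
    rw [hM] at this
    exact (inv_mul_eq_one.1 this)
  apply Equiv.ext
  rintro ⟨h, n⟩
  apply Prod.ext
  · rw [fst_prod, fst_prod, hP]
  · rw [snd_altE f h2, snd_altE f h2, sum_refl f h2 x y M hM]

include h2 in
lemma braid' (s t : S) (M : ℕ) (hM : (f s * f t) ^ M = 1) :
    ((alt s t M).map (th f)).prod = ((alt t s M).map (th f)).prod := by
  have hM' : (f t * f s) ^ M = 1 := by
    have h3 : f t * f s = (f s * f t)⁻¹ := by
      rw [mul_inv_rev, finv f h2, finv f h2]
    rw [h3, inv_pow, hM, inv_one]
  rw [alt_altE, alt_altE]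
  split
  · exact braid f h2 t s M hM'
  · exact braid f h2 s t M hM

end

end COCaux

open COCaux in
/-- the action of the Artin group on `H × ℤ` -/
theorem exists_theta {S H : Type} [Group H] (m : S → S → ℕ) (f : S → H)
    (h2 : ∀ s, f s * f s = 1) (hb : ∀ s t, s ≠ t → m s t ≠ 0 → (f s * f t) ^ (m s t) = 1) :
    ∃ φ : AR m →* Equiv.Perm (H × ℤ), ∀ s, φ (gR m s) = th f s := by
  obtain ⟨φ, h, -⟩ := t_LIFTR S (Equiv.Perm (H × ℤ)) inferInstance m (th f)
    (fun s t hst hm => braid' f h2 s t (m s t) (hb s t hst hm))
  exact ⟨φ, h⟩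

open COCaux in
theorem t_COC : S_COC := by
  classical
  intro S H _ m f h2 hb hinj
  obtain ⟨φ, hφ⟩ := exists_theta m f h2 hb
  have hpow : ∀ s (a : ℤ) (h : H) (n : ℤ), φ (gR m s ^ a) (h, n) =
      (f s ^ a * h * (f s ^ a)⁻¹, n + if h = f s then a else 0) := by
    intro s a h n
    rw [map_zpow, hφ, th_zpow]
  have i2 : ∀ (s t : S) (a b : ℤ), s ≠ t → gR m s ^ a * gR m t ^ b = 1 → a = 0 ∧ b = 0 := by
    intro s t a b hst he
    have hft : f t ≠ f s := fun h => hst (hinj h).symm
    have h3 := congrArg (fun g => (φ g) (f t, 0)) he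
    simp only [map_mul, map_one, Equiv.Perm.mul_apply, Equiv.Perm.one_apply] at h3
    rw [hpow t b, if_pos rfl] at h3
    have hc : f t ^ b * f t * (f t ^ b)⁻¹ = f t := by group
    rw [hc, hpow s a, if_neg hft] at h3
    have hb0 : b = 0 := by
      have := congrArg Prod.snd h3
      simpa using this
    subst hb0
    rw [zpow_zero, mul_one] at he
    have h4 := congrArg (fun g => (φ g) (f s, 0)) he
    simp only [map_one, Equiv.Perm.one_apply] at h4
    rw [hpow s a, if_pos rfl] at h4
    have := congrArg Prod.snd h4
    exact ⟨by simpa using this, rfl⟩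
  refine ⟨i2, ?_, ?_⟩
  · intro s t u a b d hst htu hsu he
    have hft : f t ≠ f s := fun h => hst (hinj h).symm
    have hftu : f t ≠ f u := fun h => htu (hinj h)
    have h3 := congrArg (fun g => (φ g) ((f u ^ d)⁻¹ * f t * f u ^ d, 0)) he
    simp only [map_mul, map_one, Equiv.Perm.mul_apply, Equiv.Perm.one_apply] at h3
    rw [hpow u d, if_neg (by
      intro h4
      apply hftu
      have h5 : f t = f u ^ d * ((f u ^ d)⁻¹ * f t * f u ^ d) * (f u ^ d)⁻¹ := by group
      rw [h4] at h5
      rw [h5]; group)] at h3
    have hc0 : f u ^ d * ((f u ^ d)⁻¹ * f t * f u ^ d) * (f u ^ d)⁻¹ = f t := by group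
    rw [hc0, hpow t b, if_pos rfl] at h3
    have hc : f t ^ b * f t * (f t ^ b)⁻¹ = f t := by group
    rw [hc, hpow s a, if_neg hft] at h3
    have hb0 : b = 0 := by
      have := congrArg Prod.snd h3
      simpa using this
    subst hb0
    rw [zpow_zero, mul_one] at he
    obtain ⟨e1, e2⟩ := i2 s u a d hsu he
    exact ⟨e1, rfl, e2⟩
  · intro s t a b u hst he
    have hft : f t ≠ f s := fun h => hst (hinj h).symm
    have key : ∀ (w : W S) (k1 k2 : H), k1 ≠ k2 →
        (φ (ev (gR m) w) (k1, 0)).1 ≠ (φ (ev (gR m) w) (k2, 0)).1 ∧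
        |(φ (ev (gR m) w) (k1, 0)).2| + |(φ (ev (gR m) w) (k2, 0)).2| ≤ (w.length : ℤ) := by
      intro w k1 k2 hk
      induction w with
      | nil =>
        have e : ev (gR m) ([] : W S) = 1 := rfl
        rw [e, map_one]
        simpa using hk
      | cons x w ih =>
        obtain ⟨ih1, ih2⟩ := ih
        have e : ev (gR m) (x :: w) =
          (if x.2 then gR m x.1 else (gR m x.1)⁻¹) * ev (gR m) w := rfl
        rw [e, map_mul, Equiv.Perm.mul_apply, Equiv.Perm.mul_apply]
        generalize φ (ev (gR m) w) (k1, 0) = P1 at *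
        generalize φ (ev (gR m) w) (k2, 0) = P2 at *
        obtain ⟨p1, n1⟩ := P1
        obtain ⟨p2, n2⟩ := P2
        simp only at ih1 ih2
        have hd : |dl p1 (f x.1)| + |dl p2 (f x.1)| ≤ 1 := by
          unfold dl
          by_cases c1 : p1 = f x.1
          · rw [if_pos c1, if_neg (fun c2 => ih1 (c1.trans c2.symm))]; simp
          · rw [if_neg c1]
            split_ifs <;> simp
        rw [List.length_cons]
        push_cast
        rcases x with ⟨x, _ | _⟩
        · simp only [Bool.false_eq_true, if_false, map_inv, hφ]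
          rw [th_inv_apply, th_inv_apply]
          refine ⟨fun h => ih1 ?_, ?_⟩
          · simpa using h
          · simp only
            have t1 := abs_sub n1 (dl p1 (f x))
            have t2 := abs_sub n2 (dl p2 (f x))
            simp only at hd
            linarith
        · simp only [if_true, hφ]
          rw [th_apply, th_apply]
          refine ⟨fun h => ih1 ?_, ?_⟩
          · simpa using h
          · simp only
            have t1 := abs_add_le n1 (dl p1 (f x))
            have t2 := abs_add_le n2 (dl p2 (f x))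
            simp only at hd
            linarith
    have hne : (f t ^ b)⁻¹ * f s * f t ^ b ≠ f t := by
      intro h4
      apply hft
      have h5 : f s = f t ^ b * ((f t ^ b)⁻¹ * f s * f t ^ b) * (f t ^ b)⁻¹ := by group
      rw [h4] at h5
      rw [h5]; group
    obtain ⟨-, h3⟩ := key u ((f t ^ b)⁻¹ * f s * f t ^ b) (f t) hne
    rw [he, map_mul, Equiv.Perm.mul_apply, Equiv.Perm.mul_apply, hpow t b, hpow t b,
      if_neg hne, if_pos rfl] at h3
    have hc0 : f t ^ b * ((f t ^ b)⁻¹ * f s * f t ^ b) * (f t ^ b)⁻¹ = f s := by group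
    have hc : f t ^ b * f t * (f t ^ b)⁻¹ = f t := by group
    rw [hc0, hc, hpow s a, hpow s a, if_pos rfl, if_neg hft] at h3
    simpa using h3

end Pool.Agent.H482R3.EB
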