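import Pool.Agent.H482R3.EB.Stm

set_option autoImplicit false

/-! Project EB, part CEN: trivial centre (helper482): definitions and statements. -/

namespace Pool.Agent.H482R3.EB

open Pool.Agent.H482R3.EA (W inv ev PP xx evF cond1 cond2 cV cW LIdx Syl gOf iW iV letF valS
  Sys St Near InD Adm Act)

/-- `p` is far from the (first) state -/
def Far (S : Sys) (p : S.P) : St S → Prop
  | .none => True
  | .ln l => ∀ q, S.I q l → ¬ Near S q (.pt p)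
  | .pt r => ¬ Near S r (.pt p)

/-- Conclusion of Part I with the first syllable. -/
structure Act2 (S : Sys) extends Act S where
  fst : Ω → St S
  fst_pt : ∀ ω (l : S.Ln) (q : S.P) (n : ℤ), S.I q l → n ≠ 0 → ¬ Near S q (st ω) →
    ω ≠ one → fst (act ω l (S.x l q ^ n)) = fst ω
  fst_ne : ∀ ω, ω ≠ one → fst ω ≠ .none
  pre : ∀ ω (p : S.P), ω ≠ one → Far S p (fst ω) → ∃ ω', fst ω' = .pt p ∧
    ∀ (K : Type) [Group K] (φ : (l : S.Ln) → S.L l →* K) (X : S.P → K),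
      (∀ l p, S.I p l → φ l (S.x l p) = X p) → ∀ v : Ω → K, v one = 1 →
      (∀ ω l (y : S.L l), v (act ω l y) = v ω * φ l y) → v ω' = X p * v ω

/-- Part I with the first syllable -/
def S_ACT2 : Prop := ∀ S : Sys, Nonempty (Act2 S)

/-- a valid line syllable is a prolongation -/
def S_LNE : Prop := ∀ (S : Sys) (h : EA.NF S) (l : S.Ln) (y : S.L l),
  EA.NF.Valid (.ln h l y) → EA.NF.act h l y = .ln h l y

/-- the homomorphisms of the line groups to the joined group -/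
structure Phi {V Wt : Type} (c : V ⊕ Wt → V ⊕ Wt → ℕ) where
  ι : AR (cW c) →* AJ c
  φ : (l : LnB c) → LB c l →* AJ c
  hι : ∀ w, ι (gR (cW c) w) = gJ c (.inr w)
  hB : ∀ g v, φ (.inl g) (gR (cV c) v : AR (cV c)) = ι g * gJ c (.inl v) * (ι g)⁻¹
  hx : ∀ (l : LnB c) (p : PB c), IB c p l →
    φ l (xB c l p) = ι p.1 * gJ c (.inl p.2) * (ι p.1)⁻¹

def S_PHI : Prop := ∀ (V Wt : Type) (c : V ⊕ Wt → V ⊕ Wt → ℕ), Nonempty (Phi c)

/-- the valuation is injective and, with `ι`, onto -/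
def S_INJ : Prop := ∀ (V Wt : Type) (c : V ⊕ Wt → V ⊕ Wt → ℕ) (_ : Cross c) (h : SysOK c)
  (A : Act (sysB c h)) (F : Phi c) (v : A.Ω → AJ c), v A.one = 1 →
  (∀ ω (l : LnB c) (y : LB c l), v (A.act ω l y) = v ω * F.φ l y) →
  Function.Injective v ∧ ∀ z : AJ c, ∃ ω g, z = v ω * F.ι g

/-- avoiding double cosets -/
def Av3 {S : Type} (m : S → S → ℕ) : Prop := ∀ L : List (AR m × S × S),
  ∃ h : AR m, ∀ t ∈ L, ∀ a b : ℤ, h ≠ t.1 * gR m t.2.1 ^ a * gR m t.2.2 ^ b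

/-- avoiding cosets -/
def Av2 {S : Type} (m : S → S → ℕ) : Prop := ∀ L : List (AR m × S),
  ∃ h : AR m, ∀ t ∈ L, ∀ a : ℤ, h ≠ t.1 * gR m t.2 ^ a

def S_AV3 : Prop := ∀ (S : Type) (m : S → S → ℕ), Symm m → (∀ s t, s ≠ t → m s t ≠ 1) →
  (∃ s t u : S, s ≠ t ∧ t ≠ u ∧ s ≠ u) → Av3 m

def S_AV2 : Prop := ∀ (S : Type) (m : S → S → ℕ), Tame m → (∃ s t : S, s ≠ t) → Av2 m

/-- choice of a point far from both ends -/
def Cho {V Wt : Type} (c : V ⊕ Wt → V ⊕ Wt → ℕ) (h : SysOK c) : Prop :=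
  ∀ (s s' : St (sysB c h)) (g : AR (cW c)), ∃ (x : AR (cW c)) (v : V),
    Far (sysB c h) ((x, v) : PB c) s ∧ ¬ Near (sysB c h) ((g * x, v) : PB c) s'

def S_CHO3 : Prop := ∀ (V Wt : Type) (_ : Nonempty V) (_ : Nonempty Wt) (_ : Finite Wt)
  (c : V ⊕ Wt → V ⊕ Wt → ℕ) (h : SysOK c), Av3 (cW c) → Cho c h

def S_CHO2 : Prop := ∀ (V Wt : Type) (_ : Finite Wt) (c : V ⊕ Wt → V ⊕ Wt → ℕ)
  (h : SysOK c), (∃ v v' : V, v ≠ v') → Nonempty Wt → Av2 (cW c) → Cho c h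

/-- the centre is trivial -/
def S_CENZ : Prop := ∀ (V Wt : Type) (_ : Nonempty V) (c : V ⊕ Wt → V ⊕ Wt → ℕ)
  (_ : Cross c) (h : SysOK c), Cho c h → ∀ z : AJ c, (∀ x, z * x = x * z) → z = 1

/-- `AR` of labels on `Fin n` and the joined group -/
def S_ISOJ : Prop := ∀ (a b n : ℕ) (m : Fin n → Fin n → ℕ) (e : Fin a ⊕ Fin b ≃ Fin n),
  Symm m → (∀ i j, Even (m (e (.inl i)) (e (.inr j)))) → Nonempty (AR m ≃* AJ (jn m e))

def S_ISOA : Prop := ∀ (n : ℕ) (m : Fin n → Fin n → ℕ), (∀ i, m i i = 1) → Symm m →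
  Nonempty (Art m ≃* AR m)

/-- FINAL theorem on centres -/
def S_CENF : Prop := ∀ (n : ℕ) (M : CoxeterMatrix (Fin n)) (U : Set (Fin n)), 4 ≤ n →
  U.Nonempty → Uᶜ.Nonempty → (∀ i ∈ U, ∀ j ∈ Uᶜ, Even (M i j) ∧ M i j ≠ 2) →
  Subgroup.center (Art M) = ⊥

end Pool.Agent.H482R3.EB
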