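import Pool.Agent.H482R3.EB.Comp

set_option autoImplicit false

/-! Project EB: an unconditional class. -/

namespace Pool.Agent.H482R3.EB

lemma inl_inj {a b n : ℕ} (e : Fin a ⊕ Fin b ≃ Fin n) :
    Function.Injective (fun i : Fin a => e (.inl i)) :=
  fun i j h => by simpa using e.injective h

lemma inr_inj {a b n : ℕ} (e : Fin a ⊕ Fin b ≃ Fin n) :
    Function.Injective (fun i : Fin b => e (.inr i)) :=
  fun i j h => by simpa using e.injective h

/-- the smallest class of Coxeter matrices containing all matrices of rank at most 2, closed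
under direct products (all cross labels 2) and under joins with all cross labels even and at
least 4 or infinite (`0`) -/
inductive Cls : (n : ℕ) → CoxeterMatrix (Fin n) → Prop
  | base (n : ℕ) (M : CoxeterMatrix (Fin n)) (hn : n ≤ 2) : Cls n M
  | prod (n a b : ℕ) (M : CoxeterMatrix (Fin n)) (e : Fin a ⊕ Fin b ≃ Fin n)
      (h : ∀ i j, M (e (.inl i)) (e (.inr j)) = 2)
      (h1 : Cls a (resM M (fun i => e (.inl i)) (inl_inj e)))
      (h2 : Cls b (resM M (fun i => e (.inr i)) (inr_inj e))) : Cls n M
  | join (n a b : ℕ) (M : CoxeterMatrix (Fin n)) (e : Fin a ⊕ Fin b ≃ Fin n)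
      (h : ∀ i j, Even (M (e (.inl i)) (e (.inr j))) ∧ M (e (.inl i)) (e (.inr j)) ≠ 2)
      (h1 : Cls a (resM M (fun i => e (.inl i)) (inl_inj e)))
      (h2 : Cls b (resM M (fun i => e (.inr i)) (inr_inj e))) : Cls n M

theorem t_CLS (hF : S_FINALB) (hP : S_PRODB) (hD : S_DIHB) :
    ∀ (n : ℕ) (M : CoxeterMatrix (Fin n)), Cls n M → SolvWP M := by
  intro n M h
  induction h with
  | base n M hn => exact hD n M hn
  | prod n a b M e h _ _ ih1 ih2 => exact hP n M a b e h ih1 ih2
  | join n a b M e h _ _ ih1 ih2 => exact hF n M a b e h ih1 ih2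

end Pool.Agent.H482R3.EB
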