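import Pool.Agent.H482R3.EB.Comp

set_option autoImplicit false

/-! Project EB: the closure class. -/

namespace Pool.Agent.H482R3.EB

lemma inl_inj2 {a b n : ℕ} (e : Fin a ⊕ Fin b ≃ Fin n) :
    Function.Injective (fun i : Fin a => e (.inl i)) :=
  fun i j h => by simpa using e.injective h

lemma inr_inj2 {a b n : ℕ} (e : Fin a ⊕ Fin b ≃ Fin n) :
    Function.Injective (fun i : Fin b => e (.inr i)) :=
  fun i j h => by simpa using e.injective h

/-- The smallest class of Coxeter matrices (`0` = infinity) that contains every matrix whose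
Artin group has solvable word problem, every matrix of rank at most 2, and is closed under
`prod`: the index set splits in two parts with all labels between them equal to 2, and
`join`: it splits in two parts with all labels between them even and at least 4, or infinite. -/
inductive Built : (n : ℕ) → CoxeterMatrix (Fin n) → Prop
  | known (n : ℕ) (M : CoxeterMatrix (Fin n)) (h : SolvWP M) : Built n M
  | small (n : ℕ) (M : CoxeterMatrix (Fin n)) (hn : n ≤ 2) : Built n M
  | prod (n a b : ℕ) (M : CoxeterMatrix (Fin n)) (e : Fin a ⊕ Fin b ≃ Fin n)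
      (h : ∀ i j, M (e (.inl i)) (e (.inr j)) = 2)
      (h1 : Built a (resM M (fun i => e (.inl i)) (inl_inj2 e)))
      (h2 : Built b (resM M (fun i => e (.inr i)) (inr_inj2 e))) : Built n M
  | join (n a b : ℕ) (M : CoxeterMatrix (Fin n)) (e : Fin a ⊕ Fin b ≃ Fin n)
      (h : ∀ i j, Even (M (e (.inl i)) (e (.inr j))) ∧ M (e (.inl i)) (e (.inr j)) ≠ 2)
      (h1 : Built a (resM M (fun i => e (.inl i)) (inl_inj2 e)))
      (h2 : Built b (resM M (fun i => e (.inr i)) (inr_inj2 e))) : Built n M

theorem t_BUILT (hF : S_FINALB) (hP : S_PRODB) (hD : S_DIHB) :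
    ∀ (n : ℕ) (M : CoxeterMatrix (Fin n)), Built n M → SolvWP M := by
  intro n M h
  induction h with
  | known n M h => exact h
  | small n M hn => exact hD n M hn
  | prod n a b M e h _ _ ih1 ih2 => exact hP n M a b e h ih1 ih2
  | join n a b M e h _ _ ih1 ih2 => exact hF n M a b e h ih1 ih2

end Pool.Agent.H482R3.EB
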