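import Pool.Agent.H482R3.EB.Stm

set_option autoImplicit false

/-! Project EB: reduction to the components of the graph of labels 2 and odd labels. -/

namespace Pool.Agent.H482R3.EB

open Pool.Agent.H482R3.EA (W inv ev)

/-- restriction of a Coxeter matrix -/
def resM {n a : ℕ} (M : CoxeterMatrix (Fin n)) (f : Fin a → Fin n)
    (hf : Function.Injective f) : CoxeterMatrix (Fin a) where
  M := Matrix.of fun i j => M (f i) (f j)
  isSymm := by
    ext i j
    simp [Matrix.transpose_apply, M.symmetric]
  diagonal := fun i => by simp
  off_diagonal := fun i j h => by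
    simpa using M.off_diagonal _ _ (fun h' => h (hf h'))

/-- the edges: label 2 or odd label -/
def EdgeR {n : ℕ} (m : Fin n → Fin n → ℕ) (s t : Fin n) : Prop := m s t = 2 ∨ Odd (m s t)

/-- `f` enumerates a connected component -/
def IsComp {n a : ℕ} (m : Fin n → Fin n → ℕ) (f : Fin a → Fin n) : Prop :=
  Function.Injective f ∧ ∃ x, Set.range f = {y | Relation.ReflTransGen (EdgeR m) x y}

/-- components -/
def S_COMP : Prop := ∀ (n : ℕ) (M : CoxeterMatrix (Fin n)),
  (∀ (a : ℕ) (f : Fin a → Fin n), IsComp M f → SolvWP (fun i j => M (f i) (f j))) → SolvWP M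

lemma solv_zero (m : Fin 0 → Fin 0 → ℕ) : SolvWP m := by
  unfold SolvWP
  have hall : ∀ u : List (Fin 0 × Bool),
      (u.map (fun a => if a.2 then (PresentedGroup.of a.1 : Art m)
      else (PresentedGroup.of a.1)⁻¹)).prod = 1 := by
    intro u
    cases u with
    | nil => rfl
    | cons x _ => exact x.1.elim0
  refine ⟨fun u => isTrue (hall u), ?_⟩
  refine (Computable.const true).of_eq ?_
  intro u
  simp only [Bool.true_eq, decide_eq_true_eq]
  exact hall u

theorem t_COMP (hF : S_FINALB) (hS : EA.S_SPL) : S_COMP := by
  intro n
  induction n using Nat.strong_induction_on with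
  | _ n ih =>
  intro M hM
  rcases Nat.eq_zero_or_pos n with rfl | hn
  · exact solv_zero _
  let x0 : Fin n := ⟨0, hn⟩
  let U : Set (Fin n) := {y | Relation.ReflTransGen (EdgeR M) x0 y}
  have hsym : ∀ s t, EdgeR M s t → EdgeR M t s := by
    intro s t h
    unfold EdgeR at *
    rw [M.symmetric t s]; exact h
  by_cases hU : Uᶜ.Nonempty
  · obtain ⟨a, b, e, ha, hb, han, hbn, heU, heV⟩ := hS n U ⟨x0, Relation.ReflTransGen.refl⟩ hU
    refine hF n M a b e ?_ ?_ ?_
    · intro i j
      have h : ¬ EdgeR M (e (.inl i)) (e (.inr j)) := by
        intro h
        exact heV j (Relation.ReflTransGen.tail (heU i) h)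
      unfold EdgeR at h
      push Not at h
      exact ⟨Nat.not_odd_iff_even.1 h.2, h.1⟩
    · apply hM a (fun i => e (.inl i))
      refine ⟨fun i j h => by simpa using e.injective h, x0, ?_⟩
      ext y
      constructor
      · rintro ⟨i, rfl⟩; exact heU i
      · intro hy
        rcases h : e.symm y with i | j
        · exact ⟨i, by simp [← h]⟩
        · exfalso
          have := heV j
          rw [← h] at this
          simp at this
          exact this hy
    · have hinj : Function.Injective (fun j : Fin b => e (.inr j)) :=
        fun i j h => by simpa using e.injective h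
      have key := ih b hbn (resM M (fun j => e (.inr j)) hinj) ?_
      · exact key
      · intro a' f' hf'
        obtain ⟨hi, x', hx'⟩ := hf'
        apply hM a' (fun i => e (.inr (f' i)))
        refine ⟨fun i j h => hi (hinj h), e (.inr x'), ?_⟩
        -- reachability
        have key1 : ∀ y : Fin b, Relation.ReflTransGen
            (EdgeR (resM M (fun j => e (.inr j)) hinj)) x' y →
            Relation.ReflTransGen (EdgeR M) (e (.inr x')) (e (.inr y)) := by
          intro y hy
          induction hy with
          | refl => exact Relation.ReflTransGen.refl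
          | tail _ h2 ih2 => exact ih2.tail h2
        have key2 : ∀ y : Fin n, Relation.ReflTransGen (EdgeR M) (e (.inr x')) y →
            ∃ z : Fin b, y = e (.inr z) ∧ Relation.ReflTransGen
              (EdgeR (resM M (fun j => e (.inr j)) hinj)) x' z := by
          intro y hy
          induction hy with
          | refl => exact ⟨x', rfl, Relation.ReflTransGen.refl⟩
          | @tail p q _ h2 ih2 =>
            obtain ⟨z, rfl, hz⟩ := ih2
            rcases h : e.symm q with i | j
            · exfalso
              have hq : q = e (.inl i) := by rw [← h]; simp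
              have h3 : EdgeR M (e (.inl i)) (e (.inr z)) := by
                rw [← hq]; exact hsym _ _ h2
              exact heV z (Relation.ReflTransGen.tail (heU i) h3)
            · have hq : q = e (.inr j) := by rw [← h]; simp
              refine ⟨j, hq, hz.tail ?_⟩
              rw [hq] at h2
              exact h2
        ext y
        constructor
        · rintro ⟨i, rfl⟩
          have : f' i ∈ Set.range f' := ⟨i, rfl⟩
          rw [hx'] at this
          exact key1 _ this
        · intro hy
          obtain ⟨z, rfl, hz⟩ := key2 y hy
          have : z ∈ Set.range f' := by rw [hx']; exact hz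
          obtain ⟨i, rfl⟩ := this
          exact ⟨i, rfl⟩
  · have hall : ∀ y, y ∈ U := by
      intro y
      by_contra hy
      exact hU ⟨y, hy⟩
    have := hM n id ⟨Function.injective_id, x0, by
      ext y; simp only [Set.range_id, Set.mem_univ, true_iff]; exact hall y⟩
    exact this

end Pool.Agent.H482R3.EB
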