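import Pool.Agent.H482R3.EA.Stm

set_option autoImplicit false

/-! Project EB: combination theorem for Artin groups, definitions (helper482). -/

namespace Pool.Agent.H482R3.EB

open Pool.Agent.H482R3.EA (W inv ev PP xx evF cond1 cond2 cV cW LIdx Syl gOf iW iV letF valS
  Sys St Near InD Adm Act)

/-! ## words -/

/-- total exponent of a word -/
def tot {S : Type} (u : W S) : ℤ := (u.map (fun a => if a.2 then (1 : ℤ) else -1)).sum

/-- the word `s ^ n` -/
def wp {S : Type} (s : S) (n : ℤ) : W S :=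
  if 0 ≤ n then List.replicate n.toNat (s, true) else List.replicate (-n).toNat (s, false)

/-- the alternating word `s t s ⋯` of length `n` that begins with `s` -/
def alt {S : Type} : S → S → ℕ → List S
  | _, _, 0 => []
  | s, t, n + 1 => s :: alt t s n

lemma alt_length {S : Type} (n : ℕ) : ∀ s t : S, (alt s t n).length = n := by
  induction n with
  | zero => intro s t; rfl
  | succ n ih => intro s t; simp [alt, ih]

/-! ## Artin groups -/

/-- the relators; `m s t` is the label of `s, t`; `0` stands for infinity -/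
def rels {S : Type} (m : S → S → ℕ) : Set (FreeGroup S) :=
  {r | ∃ s t : S, s ≠ t ∧ m s t ≠ 0 ∧
    r = ((alt s t (m s t)).map FreeGroup.of).prod *
      (((alt t s (m s t)).map FreeGroup.of).prod)⁻¹}

/-- the Artin group with labels `m` -/
abbrev AR {S : Type} (m : S → S → ℕ) : Type := PresentedGroup (rels m)

/-- the generators -/
def gR {S : Type} (m : S → S → ℕ) (s : S) : AR m := PresentedGroup.of s

/-- the word `u` is trivial in `AR m` -/
def TR {S : Type} (m : S → S → ℕ) (u : W S) : Prop := ev (gR m) u = 1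

/-- the total exponent as a homomorphism -/
def toth {S : Type} (m : S → S → ℕ) : AR m →* Multiplicative ℤ :=
  PresentedGroup.toGroup (f := fun _ => Multiplicative.ofAdd (1 : ℤ)) (by
    rintro r ⟨s, t, _, _, rfl⟩
    rw [map_mul, map_inv, map_list_prod, map_list_prod, List.map_map, List.map_map]
    have h : (⇑(FreeGroup.lift fun _ : S => Multiplicative.ofAdd (1 : ℤ)) ∘ FreeGroup.of)
        = fun _ => Multiplicative.ofAdd (1 : ℤ) := by
      funext a; simp
    rw [h, List.map_const', List.map_const', List.prod_replicate, List.prod_replicate,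
      alt_length, alt_length, mul_inv_cancel])

/-- total exponent of an element -/
def totg {S : Type} (m : S → S → ℕ) (g : AR m) : ℤ := Multiplicative.toAdd (toth m g)

/-- independence of the generators -/
structure Tame {S : Type} (m : S → S → ℕ) : Prop where
  i2 : ∀ (s t : S) (a b : ℤ), s ≠ t → gR m s ^ a * gR m t ^ b = 1 → a = 0 ∧ b = 0
  i3 : ∀ (s t u : S) (a b d : ℤ), s ≠ t → t ≠ u → s ≠ u →
    gR m s ^ a * gR m t ^ b * gR m u ^ d = 1 → a = 0 ∧ b = 0 ∧ d = 0
  bd : ∀ (s t : S) (a b : ℤ) (u : W S), s ≠ t → ev (gR m) u = gR m s ^ a * gR m t ^ b →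
    |a| + |b| ≤ (u.length : ℤ)

/-! ## the joined group: inside `V` and inside `W` the function `c` gives the labels, for
`v ∈ V`, `w ∈ W` it gives half of the label (`0` = infinity) -/

section sys

variable {V Wt : Type} (c : V ⊕ Wt → V ⊕ Wt → ℕ)

/-- the relators of the joined group -/
def relsJ : Set (FreeGroup (V ⊕ Wt)) :=
  {r | (∃ s t : V, s ≠ t ∧ cV c s t ≠ 0 ∧
      r = ((alt s t (cV c s t)).map (fun a => FreeGroup.of (Sum.inl a : V ⊕ Wt))).prod *
        (((alt t s (cV c s t)).map (fun a => FreeGroup.of (Sum.inl a : V ⊕ Wt))).prod)⁻¹) ∨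
    (∃ s t : Wt, s ≠ t ∧ cW c s t ≠ 0 ∧
      r = ((alt s t (cW c s t)).map (fun a => FreeGroup.of (Sum.inr a : V ⊕ Wt))).prod *
        (((alt t s (cW c s t)).map (fun a => FreeGroup.of (Sum.inr a : V ⊕ Wt))).prod)⁻¹) ∨
    (∃ (v : V) (w : Wt), c (.inl v) (.inr w) ≠ 0 ∧
      r = (FreeGroup.of (.inl v) * FreeGroup.of (.inr w)) ^ (c (.inl v) (.inr w)) *
        ((FreeGroup.of (.inr w) * FreeGroup.of (.inl v)) ^ (c (.inl v) (.inr w)))⁻¹)}

/-- the joined group -/
abbrev AJ : Type := PresentedGroup (relsJ c)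

def gJ (s : V ⊕ Wt) : AJ c := PresentedGroup.of s

def TJ (u : W (V ⊕ Wt)) : Prop := ev (gJ c) u = 1

/-- lines: `B_g` for `g ∈ A_W`, and `(v, w, g⟨w⟩)` -/
def LnB : Type :=
  AR (cW c) ⊕ (Σ i : LIdx c, AR (cW c) ⧸ Subgroup.zpowers (gR (cW c) i.1.2))

def LB : LnB c → Type
  | .inl _ => AR (cV c)
  | .inr q => FreeGroup (Fin (c (.inl q.1.1.1) (.inr q.1.1.2)))

instance instGrpLB : ∀ l : LnB c, Group (LB c l)
  | .inl _ => inferInstanceAs (Group (AR (cV c)))
  | .inr q => inferInstanceAs (Group (FreeGroup (Fin (c (.inl q.1.1.1) (.inr q.1.1.2)))))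

/-- points `(g, v)` -/
abbrev PB : Type := AR (cW c) × V

def IB : PB c → LnB c → Prop
  | p, .inl g => p.1 = g
  | p, .inr q => p.2 = q.1.1.1 ∧ (QuotientGroup.mk p.1 : AR (cW c) ⧸ _) = q.2

noncomputable def xB : (l : LnB c) → PB c → LB c l
  | .inl _ => fun p => gR (cV c) p.2
  | .inr q => fun p => xx _ (totg (cW c) ((q.2.out : AR (cW c))⁻¹ * p.1))

/-- all axioms of a system for these data -/
structure SysOK : Prop where
  P0 : ∀ p : PB c, ∃ l, IB c p l
  Λ0 : ∀ l : LnB c, ∃ p, IB c p l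
  X0 : ∀ (l : LnB c) (p : PB c) (n : ℤ), IB c p l → xB c l p ^ n = 1 → n = 0
  L1 : ∀ (l : LnB c) (p q : PB c) (a b : ℤ), IB c p l → IB c q l → p ≠ q →
    xB c l p ^ a * xB c l q ^ b = 1 → a = 0 ∧ b = 0
  L2 : ∀ (l : LnB c) (p q r : PB c) (a b d : ℤ), IB c p l → IB c q l → IB c r l →
    p ≠ q → q ≠ r → p ≠ r →
    xB c l p ^ a * xB c l q ^ b * xB c l r ^ d = 1 → a = 0 ∧ b = 0 ∧ d = 0
  G1 : ∀ (l m : LnB c) (p q : PB c), l ≠ m → IB c p l → IB c q l → IB c p m →
    IB c q m → p = q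
  G2 : ∀ (l m k : LnB c) (p q r : PB c), l ≠ m → m ≠ k → k ≠ l →
    IB c p l → IB c p m → IB c q m → IB c q k → IB c r k → IB c r l → p = q

/-- the system -/
noncomputable def sysB (h : SysOK c) : Sys where
  P := PB c
  Ln := LnB c
  I := IB c
  L := LB c
  grp := instGrpLB c
  x := xB c
  P0 := h.P0
  Λ0 := h.Λ0
  X0 := h.X0
  L1 := h.L1
  L2 := h.L2
  G1 := h.G1
  G2 := h.G2

end sys

/-! ## codes -/

section codes

variable {V Wt : Type} (c : V ⊕ Wt → V ⊕ Wt → ℕ)

/-- the word `u` over `W` represents a power of `w` -/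
def inz (w : Wt) (u : W Wt) : Prop := TR (cW c) (u ++ wp w (-(tot u)))

/-- the point `(g, v)` is on a line of the state of the syllable -/
def NearW (g : W Wt) (v : V) : Option (Syl V Wt) → Prop
  | none => False
  | some (.inl (g', v', _, _)) =>
      TR (cW c) (inv g' ++ g) ∨
        (v = v' ∧ ∃ w, c (.inl v) (.inr w) ≠ 0 ∧ inz c w (inv g' ++ g))
  | some (.inr (.inl (g', _))) => TR (cW c) (inv g' ++ g)
  | some (.inr (.inr (g', v', w', _))) => v = v' ∧ inz c w' (inv g' ++ g)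

/-- the line `B_g` is in the state -/
def InDB (g : W Wt) : Option (Syl V Wt) → Prop
  | none => False
  | some (.inl (g', _, _, _)) => TR (cW c) (inv g' ++ g)
  | some (.inr (.inl (g', _))) => TR (cW c) (inv g' ++ g)
  | some (.inr (.inr _)) => False

/-- the line `(v, w, g⟨w⟩)` is in the state -/
def InDL (g : W Wt) (v : V) (w : Wt) : Option (Syl V Wt) → Prop
  | none => False
  | some (.inl (g', v', _, _)) => v = v' ∧ inz c w (inv g' ++ g)
  | some (.inr (.inl _)) => False
  | some (.inr (.inr (g', v', w', _))) => v = v' ∧ w = w' ∧ inz c w (inv g' ++ g)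

/-- admissibility of the syllable `a` after the state of `s` -/
def AdmW (s : Option (Syl V Wt)) : Syl V Wt → Prop
  | .inl (g, v, _, n) => n ≠ 0 ∧ ¬ NearW c g v s
  | .inr (.inl (g, y)) => ¬ InDB c g s ∧
      (((∀ v, ¬ NearW c g v s) ∧ ∀ (v : V) (a : ℤ), ¬ TR (cV c) (y ++ wp v a)) ∨
       (∃ v, NearW c g v s ∧ ∀ (v' : V) (a b : ℤ), ¬ TR (cV c) (wp v a ++ y ++ wp v' b)))
  | .inr (.inr (g, v, w, y)) => c (.inl v) (.inr w) ≠ 0 ∧ ¬ InDL c g v w s ∧
      (((∀ j : ℤ, ¬ NearW c (g ++ wp w j) v s) ∧ cond1 (c (.inl v) (.inr w)) y) ∨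
       (∃ j : ℤ, NearW c (g ++ wp w j) v s ∧ cond2 (c (.inl v) (.inr w)) j y))

/-- valid codes -/
def VC : Option (Syl V Wt) → List (Syl V Wt) → Prop
  | _, [] => True
  | s, a :: l => AdmW c s a ∧ VC (some a) l

end codes

/-- cross labels at least 4 or infinite -/
def Cross {V Wt : Type} (c : V ⊕ Wt → V ⊕ Wt → ℕ) : Prop :=
  ∀ v w, c (.inl v) (.inr w) ≠ 1

/-- symmetric labels -/
def Symm {S : Type} (m : S → S → ℕ) : Prop := ∀ s t, m s t = m t s

end Pool.Agent.H482R3.EB
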