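import Pool.Agent.H482R3.EB.Stm

set_option autoImplicit false

namespace Pool.Agent.H482R3.EB

namespace GEOaux

open Real

variable {S : Type} (m : S → S → ℕ)

open Classical in
/-- the bilinear form on basis vectors -/
noncomputable def bb (s t : S) : ℝ :=
  if s = t then 1 else if m s t = 0 then -1 else -Real.cos (π / m s t)

noncomputable def LL (s : S) : (S →₀ ℝ) →ₗ[ℝ] ℝ := Finsupp.linearCombination ℝ (fun t => bb m s t)

noncomputable def ee (s : S) : S →₀ ℝ := Finsupp.single s 1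

noncomputable def sg (s : S) : (S →₀ ℝ) →ₗ[ℝ] (S →₀ ℝ) :=
  LinearMap.id - (2 : ℝ) • (LL m s).smulRight (ee s)

lemma LL_ee (s t : S) : LL m s (ee t) = bb m s t := by
  unfold LL ee
  simp

lemma sg_apply (s : S) (x : S →₀ ℝ) : sg m s x = x - (2 * LL m s x) • ee s := by
  unfold sg
  simp [mul_smul]

lemma bb_self (s : S) : bb m s s = 1 := by
  unfold bb; simp

lemma sg_invol (s : S) : Function.Involutive (sg m s) := by
  intro x
  rw [sg_apply, sg_apply, map_sub, map_smul, LL_ee, bb_self, smul_eq_mul]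
  module

noncomputable def ff (s : S) : (S →₀ ℝ) ≃ₗ[ℝ] (S →₀ ℝ) :=
  LinearEquiv.ofInvolutive (sg m s) (sg_invol m s)

lemma ff_apply (s : S) (x : S →₀ ℝ) : ff m s x = sg m s x := rfl

lemma ff_sq (s : S) : ff m s * ff m s = 1 := by
  apply LinearEquiv.ext
  intro x
  exact sg_invol m s x

/-- the rotating vector -/
noncomputable def ww (s t : S) (θ φ : ℝ) : S →₀ ℝ :=
  Real.sin (φ + θ) • ee s + Real.sin φ • ee t

lemma step (s t : S) (θ : ℝ) (h1 : bb m s t = - Real.cos θ) (h2 : bb m t s = - Real.cos θ)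
    (φ : ℝ) : sg m s (sg m t (ww s t θ φ)) = ww s t θ (φ + 2 * θ) := by
  have e1 : Real.sin (φ + 2 * θ) = 2 * Real.cos θ * Real.sin (φ + θ) - Real.sin φ := by
    have a1 : φ + 2 * θ = (φ + θ) + θ := by ring
    have a2 : φ = (φ + θ) - θ := by ring
    rw [a1, Real.sin_add (φ + θ) θ]
    conv_rhs => rw [a2, Real.sin_sub, sub_add_cancel]
    ring
  have e2 : Real.sin (φ + 2 * θ + θ) = 2 * Real.cos θ * Real.sin (φ + 2 * θ)
      - Real.sin (φ + θ) := by
    have a2 : φ + θ = (φ + 2 * θ) - θ := by ring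
    rw [Real.sin_add (φ + 2 * θ) θ, a2, Real.sin_sub]
    ring
  have s1 : sg m t (ww s t θ φ) = Real.sin (φ + θ) • ee s + Real.sin (φ + 2 * θ) • ee t := by
    rw [sg_apply]
    unfold ww
    rw [map_add, map_smul, map_smul, LL_ee, LL_ee, bb_self, h2, e1, smul_eq_mul, smul_eq_mul]
    module
  rw [s1, sg_apply]
  unfold ww
  rw [map_add, map_smul, map_smul, LL_ee, LL_ee, bb_self, h1, e2, smul_eq_mul, smul_eq_mul]
  module

lemma fixed (s t : S) (x : S →₀ ℝ) (h1 : LL m s x = 0) (h2 : LL m t x = 0) :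
    sg m s (sg m t x) = x := by
  rw [sg_apply m t, h2, sg_apply, mul_zero, zero_smul, sub_zero, h1, mul_zero, zero_smul,
    sub_zero]

lemma pow_apply (s t : S) (θ : ℝ) (h1 : bb m s t = - Real.cos θ) (h2 : bb m t s = - Real.cos θ)
    (x0 : S →₀ ℝ) (k1 : LL m s x0 = 0) (k2 : LL m t x0 = 0) (A B φ ψ : ℝ) (k : ℕ) :
    ((ff m s * ff m t) ^ k) (x0 + A • ww s t θ φ + B • ww s t θ ψ) =
      x0 + A • ww s t θ (φ + 2 * k * θ) + B • ww s t θ (ψ + 2 * k * θ) := by
  induction k generalizing φ ψ with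
  | zero => simp
  | succ k ih =>
    rw [pow_succ, LinearEquiv.mul_apply]
    have hst : (ff m s * ff m t) (x0 + A • ww s t θ φ + B • ww s t θ ψ) =
        x0 + A • ww s t θ (φ + 2 * θ) + B • ww s t θ (ψ + 2 * θ) := by
      rw [LinearEquiv.mul_apply, ff_apply, ff_apply, map_add, map_add, map_smul, map_smul,
        map_add, map_add, map_smul, map_smul, fixed m s t x0 k1 k2, step m s t θ h1 h2,
        step m s t θ h1 h2]
    rw [hst, ih]
    have a1 : φ + 2 * θ + 2 * (k : ℝ) * θ = φ + 2 * ((k + 1 : ℕ) : ℝ) * θ := by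
      push_cast; ring
    have a2 : ψ + 2 * θ + 2 * (k : ℝ) * θ = ψ + 2 * ((k + 1 : ℕ) : ℝ) * θ := by
      push_cast; ring
    rw [a1, a2]

lemma ww_period (s t : S) (θ φ : ℝ) : ww s t θ (φ + 2 * π) = ww s t θ φ := by
  unfold ww
  rw [show φ + 2 * π + θ = (φ + θ) + 2 * π by ring, Real.sin_add_two_pi, Real.sin_add_two_pi]

end GEOaux

open GEOaux in
theorem t_GEO : S_GEO := by
  classical
  intro S m hs h1
  refine ⟨(S →₀ ℝ) ≃ₗ[ℝ] (S →₀ ℝ), inferInstance, ff m, ff_sq m, ?_, ?_⟩
  · intro s t hst hm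
    have hm2 : 2 ≤ m s t := by
      have := h1 s t hst
      omega
    set θ : ℝ := Real.pi / m s t with hθ
    have hmR : (2 : ℝ) ≤ m s t := by exact_mod_cast hm2
    have hθ0 : 0 < θ := by
      rw [hθ]; positivity
    have hθ1 : θ < Real.pi := by
      rw [hθ, div_lt_iff₀ (by linarith)]
      nlinarith [Real.pi_pos]
    have hsin : 0 < Real.sin θ := Real.sin_pos_of_pos_of_lt_pi hθ0 hθ1
    have b1 : bb m s t = - Real.cos θ := by
      unfold bb
      rw [if_neg hst, if_neg hm]
    have b2 : bb m t s = - Real.cos θ := by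
      unfold bb
      rw [if_neg hst.symm, hs t s, if_neg hm]
    apply LinearEquiv.ext
    intro x
    set p := LL m s x with hp
    set q := LL m t x with hq
    set a := (p + q * Real.cos θ) / Real.sin θ ^ 2 with ha
    set b := (q + p * Real.cos θ) / Real.sin θ ^ 2 with hb
    have hsc : Real.sin θ ^ 2 = 1 - Real.cos θ ^ 2 := Real.sin_sq θ
    have hs2 : Real.sin θ ^ 2 ≠ 0 := by positivity
    set x0 : S →₀ ℝ := x - a • ee s - b • ee t with hx0
    have k1 : LL m s x0 = 0 := by
      rw [hx0, map_sub, map_sub, map_smul, map_smul, LL_ee, LL_ee, bb_self, b1, ← hp, smul_eq_mul,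
        smul_eq_mul, ha, hb]
      field_simp
      rw [hsc]
      ring
    have k2 : LL m t x0 = 0 := by
      rw [hx0, map_sub, map_sub, map_smul, map_smul, LL_ee, LL_ee, bb_self, b2, ← hq, smul_eq_mul,
        smul_eq_mul, ha, hb]
      field_simp
      rw [hsc]
      ring
    have hx : x = x0 + (a / Real.sin θ) • ww s t θ 0 + (-b / Real.sin θ) • ww s t θ (-θ) := by
      unfold ww
      rw [zero_add, neg_add_cancel, Real.sin_zero, Real.sin_neg, hx0]
      have c1 : (a / Real.sin θ) • (Real.sin θ • ee s + (0 : ℝ) • ee t) = a • ee s := by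
        rw [zero_smul, add_zero, smul_smul, div_mul_cancel₀ _ hsin.ne']
      have c2 : (-b / Real.sin θ) • ((0 : ℝ) • ee s + (-Real.sin θ) • ee t) = b • ee t := by
        rw [zero_smul, zero_add, smul_smul]
        congr 1
        field_simp
      rw [c1, c2]
      module
    have key := pow_apply m s t θ b1 b2 x0 k1 k2 (a / Real.sin θ) (-b / Real.sin θ) 0 (-θ) (m s t)
    have hper : 2 * (m s t : ℝ) * θ = 2 * Real.pi := by
      rw [hθ]
      field_simp
    rw [hper, ww_period, ww_period, ← hx] at key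
    exact key
  · intro s t h
    by_contra hst
    have h2 : ff m s (ee s) = ff m t (ee s) := by rw [h]
    rw [ff_apply, ff_apply, sg_apply, sg_apply, LL_ee, LL_ee, bb_self] at h2
    have h3 := DFunLike.congr_fun h2 s
    simp [ee, Ne.symm hst] at h3

end Pool.Agent.H482R3.EB
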