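import Pool.Agent.H482R3.EB.TOT

set_option autoImplicit false

/-! Project AR (helper482), task GG: geometry of cosets. -/

namespace Pool.Agent.H482R3.EB.GGB

open Pool.Agent.H482R3.EB
open Pool.Agent.H482R3.EA (W inv ev PP xx evF cond1 cond2 cV cW LIdx Syl gOf iW iV letF valS
  Sys St Near InD Adm Act)

section
variable {V Wt : Type} (c : V ⊕ Wt → V ⊕ Wt → ℕ)

lemma eq_of {p : PB c} {a b : Σ i : LIdx c, AR (cW c) ⧸ Subgroup.zpowers (gR (cW c) i.1.2)}
    (h1 : IB c p (Sum.inr a)) (h2 : IB c p (Sum.inr b)) (h : a.1.1.2 = b.1.1.2) : a = b := by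
  obtain ⟨i, C⟩ := a
  obtain ⟨j, D⟩ := b
  have h3 : p.2 = i.1.1 := h1.1
  have h4 : p.2 = j.1.1 := h2.1
  have hij : i = j := Subtype.ext (Prod.ext (h3.symm.trans h4) h)
  subst hij
  have h5 : (QuotientGroup.mk p.1 : AR (cW c) ⧸ Subgroup.zpowers (gR (cW c) i.1.2)) = C := h1.2
  have h6 : (QuotientGroup.mk p.1 : AR (cW c) ⧸ Subgroup.zpowers (gR (cW c) i.1.2)) = D := h2.2
  rw [← h5, ← h6]

lemma pow_of {p q : PB c}
    {a : Σ i : LIdx c, AR (cW c) ⧸ Subgroup.zpowers (gR (cW c) i.1.2)}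
    (h1 : IB c p (Sum.inr a)) (h2 : IB c q (Sum.inr a)) :
    p.2 = q.2 ∧ ∃ n : ℤ, p.1⁻¹ * q.1 = gR (cW c) a.1.1.2 ^ n := by
  obtain ⟨i, C⟩ := a
  have h3 : p.2 = i.1.1 := h1.1
  have h4 : q.2 = i.1.1 := h2.1
  have h5 : (QuotientGroup.mk p.1 : AR (cW c) ⧸ Subgroup.zpowers (gR (cW c) i.1.2)) = C := h1.2
  have h6 : (QuotientGroup.mk q.1 : AR (cW c) ⧸ Subgroup.zpowers (gR (cW c) i.1.2)) = C := h2.2
  refine ⟨h3.trans h4.symm, ?_⟩
  have h7 := QuotientGroup.eq.1 (h5.trans h6.symm)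
  obtain ⟨n, hn⟩ := Subgroup.mem_zpowers_iff.1 h7
  exact ⟨n, hn.symm⟩

end

theorem t_GGB : S_GGB := by
  intro V Wt c hT
  have w0 : ∀ (w : Wt) (n : ℤ), gR (cW c) w ^ n = 1 → n = 0 := by
    intro w n h
    have := totg_zpow (cW c) w n
    rw [h, totg_one] at this
    exact this.symm
  have G1 : ∀ (l m : LnB c) (p q : PB c), l ≠ m → IB c p l → IB c q l → IB c p m →
      IB c q m → p = q := by
    rintro (g | a) (g' | b) p q hlm hpl hql hpm hqm
    · exfalso
      apply hlm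
      have e1 : p.1 = g := hpl
      have e2 : p.1 = g' := hpm
      rw [← e1, ← e2]
    · have e1 : p.1 = g := hpl
      have e2 : q.1 = g := hql
      have e3 := (pow_of c hpm hqm).1
      exact Prod.ext (e1.trans e2.symm) e3
    · have e1 : p.1 = g' := hpm
      have e2 : q.1 = g' := hqm
      have e3 := (pow_of c hpl hql).1
      exact Prod.ext (e1.trans e2.symm) e3
    · have hw : a.1.1.2 ≠ b.1.1.2 := by
        intro h
        exact hlm (congrArg Sum.inr (eq_of c hpl hpm h))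
      obtain ⟨e3, n, hn⟩ := pow_of c hpl hql
      obtain ⟨-, n', hn'⟩ := pow_of c hpm hqm
      have e4 : n = 0 := by
        have e5 : gR (cW c) a.1.1.2 ^ n * gR (cW c) b.1.1.2 ^ (-n') = 1 := by
          rw [← hn, hn', zpow_neg, mul_inv_cancel]
        exact (hT.i2 _ _ _ _ hw e5).1
      rw [e4, zpow_zero, inv_mul_eq_one] at hn
      exact Prod.ext hn e3
  refine ⟨G1, ?_⟩
  rintro (g | a) (g' | b) (g'' | d) p q r hlm hmk hkl hpl hpm hqm hqk hrk hrl
  · exfalso
    apply hlm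
    have e1 : p.1 = g := hpl
    have e2 : p.1 = g' := hpm
    rw [← e1, ← e2]
  · exfalso
    apply hlm
    have e1 : p.1 = g := hpl
    have e2 : p.1 = g' := hpm
    rw [← e1, ← e2]
  · exfalso
    apply hkl
    have e1 : r.1 = g := hrl
    have e2 : r.1 = g'' := hrk
    rw [← e1, ← e2]
  · have e1 : p.1 = g := hpl
    have e2 : r.1 = g := hrl
    have e3 := (pow_of c hpm hqm).1
    have e4 := (pow_of c hqk hrk).1
    have e5 : p = r := Prod.ext (e1.trans e2.symm) (e3.trans e4)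
    subst e5
    exact G1 _ _ p q hmk hpm hqm hrk hqk
  · exfalso
    apply hmk
    have e1 : q.1 = g' := hqm
    have e2 : q.1 = g'' := hqk
    rw [← e1, ← e2]
  · have e1 : p.1 = g' := hpm
    have e2 : q.1 = g' := hqm
    have e3 := (pow_of c hrl hpl).1
    have e4 := (pow_of c hqk hrk).1
    exact Prod.ext (e1.trans e2.symm) (e3.symm.trans e4.symm)
  · have e1 : q.1 = g'' := hqk
    have e2 : r.1 = g'' := hrk
    have e3 := (pow_of c hpm hqm).1
    have e4 := (pow_of c hrl hpl).1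
    have e5 : r = q := Prod.ext (e2.trans e1.symm) (e4.trans e3)
    subst e5
    exact G1 _ _ p r hlm hpl hrl hpm hqm
  · have hab : b.1.1.2 ≠ a.1.1.2 := by
      intro h
      exact hlm (congrArg Sum.inr (eq_of c hpl hpm h.symm))
    have hbd : b.1.1.2 ≠ d.1.1.2 := by
      intro h
      exact hmk (congrArg Sum.inr (eq_of c hqm hqk h))
    obtain ⟨e3, x, hx⟩ := pow_of c hpm hqm
    obtain ⟨-, y, hy⟩ := pow_of c hqk hrk
    obtain ⟨-, z, hz⟩ := pow_of c hrl hpl
    have hprod : gR (cW c) b.1.1.2 ^ x * gR (cW c) d.1.1.2 ^ y * gR (cW c) a.1.1.2 ^ z = 1 := by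
      rw [← hx, ← hy, ← hz]
      group
    have e4 : x = 0 := by
      by_cases hda : d.1.1.2 = a.1.1.2
      · rw [hda, mul_assoc, ← zpow_add] at hprod
        exact (hT.i2 _ _ _ _ hab hprod).1
      · exact (hT.i3 _ _ _ _ _ _ hbd hda hab hprod).1
    rw [e4, zpow_zero, inv_mul_eq_one] at hx
    exact Prod.ext hx e3

end Pool.Agent.H482R3.EB.GGB
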