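import Pool.Agent.H482R3.EB.Stm

set_option autoImplicit false

namespace Pool.Agent.H482R3.EB

open Pool.Agent.H482R3.EA (W inv ev PP xx evF cond1 cond2 cV cW LIdx Syl gOf iW iV letF valS
  Sys St Near InD Adm Act)

lemma map_ev {S G K : Type} [Group G] [Group K] (φ : G →* K) (f : S → G) (u : W S) :
    φ (ev f u) = ev (fun s => φ (f s)) u := by
  unfold ev
  rw [map_list_prod, List.map_map]
  congr 1
  apply List.map_congr_left
  intro a _
  simp only [Function.comp]
  split <;> simp

theorem t_LIFTR : S_LIFTR := by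
  intro S G _ m f h
  have hr : ∀ r ∈ rels m, FreeGroup.lift f r = 1 := by
    rintro r ⟨s, t, hst, hm, rfl⟩
    rw [map_mul, map_inv, map_list_prod, map_list_prod, List.map_map, List.map_map]
    have h1 : (⇑(FreeGroup.lift f) ∘ FreeGroup.of) = f := by
      funext a; simp
    rw [h1, h s t hst hm, mul_inv_cancel]
  refine ⟨PresentedGroup.toGroup hr, ?_, ?_⟩
  · intro s
    exact PresentedGroup.toGroup.of hr
  · intro u
    rw [map_ev]
    congr 1
    funext s
    exact PresentedGroup.toGroup.of hr

theorem t_LIFTJ : S_LIFTJ := by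
  intro V Wt G _ c f hV hW hX
  have hr : ∀ r ∈ relsJ c, FreeGroup.lift f r = 1 := by
    rintro r (⟨s, t, hst, hm, rfl⟩ | ⟨s, t, hst, hm, rfl⟩ | ⟨v, w, hc, rfl⟩)
    · rw [map_mul, map_inv, map_list_prod, map_list_prod, List.map_map, List.map_map]
      have h1 : (⇑(FreeGroup.lift f) ∘ fun a => FreeGroup.of (Sum.inl a : V ⊕ Wt)) =
          fun a => f (.inl a) := by
        funext a; simp
      rw [h1, hV s t hst hm, mul_inv_cancel]
    · rw [map_mul, map_inv, map_list_prod, map_list_prod, List.map_map, List.map_map]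
      have h1 : (⇑(FreeGroup.lift f) ∘ fun a => FreeGroup.of (Sum.inr a : V ⊕ Wt)) =
          fun a => f (.inr a) := by
        funext a; simp
      rw [h1, hW s t hst hm, mul_inv_cancel]
    · rw [map_mul, map_inv, map_pow, map_pow, map_mul, map_mul, FreeGroup.lift_apply_of,
        FreeGroup.lift_apply_of, hX v w hc, mul_inv_cancel]
  refine ⟨PresentedGroup.toGroup hr, ?_, ?_⟩
  · intro s
    exact PresentedGroup.toGroup.of hr
  · intro u
    rw [map_ev]
    congr 1
    funext s
    exact PresentedGroup.toGroup.of hr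

theorem t_RELR : S_RELR := by
  constructor
  · intro S m s t hst hm
    have h : PresentedGroup.mk (rels m) (((alt s t (m s t)).map FreeGroup.of).prod *
        (((alt t s (m s t)).map FreeGroup.of).prod)⁻¹) = 1 :=
      PresentedGroup.one_of_mem ⟨s, t, hst, hm, rfl⟩
    rw [map_mul, map_inv, map_list_prod, map_list_prod, List.map_map, List.map_map,
      mul_inv_eq_one] at h
    exact h
  · intro V Wt c
    refine ⟨?_, ?_, ?_⟩
    · intro s t hst hm
      have h : PresentedGroup.mk (relsJ c) (((alt s t (cV c s t)).map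
          (fun a => FreeGroup.of (Sum.inl a : V ⊕ Wt))).prod *
          (((alt t s (cV c s t)).map (fun a => FreeGroup.of (Sum.inl a : V ⊕ Wt))).prod)⁻¹) = 1 :=
        PresentedGroup.one_of_mem (Or.inl ⟨s, t, hst, hm, rfl⟩)
      rw [map_mul, map_inv, map_list_prod, map_list_prod, List.map_map, List.map_map,
        mul_inv_eq_one] at h
      exact h
    · intro s t hst hm
      have h : PresentedGroup.mk (relsJ c) (((alt s t (cW c s t)).map
          (fun a => FreeGroup.of (Sum.inr a : V ⊕ Wt))).prod *
          (((alt t s (cW c s t)).map (fun a => FreeGroup.of (Sum.inr a : V ⊕ Wt))).prod)⁻¹) = 1 :=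
        PresentedGroup.one_of_mem (Or.inr (Or.inl ⟨s, t, hst, hm, rfl⟩))
      rw [map_mul, map_inv, map_list_prod, map_list_prod, List.map_map, List.map_map,
        mul_inv_eq_one] at h
      exact h
    · intro v w hc
      have h : PresentedGroup.mk (relsJ c) ((FreeGroup.of (.inl v) * FreeGroup.of (.inr w)) ^
          (c (.inl v) (.inr w)) *
          ((FreeGroup.of (.inr w) * FreeGroup.of (.inl v)) ^ (c (.inl v) (.inr w)))⁻¹) = 1 :=
        PresentedGroup.one_of_mem (Or.inr (Or.inr ⟨v, w, hc, rfl⟩))
      rw [map_mul, map_inv, map_pow, map_pow, map_mul, map_mul, mul_inv_eq_one] at h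
      exact h

end Pool.Agent.H482R3.EB
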