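import Pool.Agent.H482R3.EB.TOT

set_option autoImplicit false

namespace Pool.Agent.H482R3.EB

open Pool.Agent.H482R3.EA (W inv ev PP xx evF cond1 cond2 cV cW LIdx Syl gOf iW iV letF valS
  Sys St Near InD Adm Act)

theorem t_LXB (h3 : EA.S_X3) : S_LXB := by
  intro V Wt c hcr hV
  -- the index of a point on a line
  have hidx : ∀ (v : V) (w : Wt) (hc : c (.inl v) (.inr w) ≠ 0)
      (C : AR (cW c) ⧸ Subgroup.zpowers (gR (cW c) w)) (p q : PB c),
      IB c p (Sum.inr ⟨(⟨(v, w), hc⟩ : LIdx c), C⟩ : LnB c) →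
      IB c q (Sum.inr ⟨(⟨(v, w), hc⟩ : LIdx c), C⟩ : LnB c) → p ≠ q →
      totg (cW c) ((C.out : AR (cW c))⁻¹ * p.1) ≠ totg (cW c) ((C.out : AR (cW c))⁻¹ * q.1) := by
    intro v w hc C p q hp hq hpq he
    obtain ⟨hp1, hp2⟩ : p.2 = v ∧ (QuotientGroup.mk p.1 :
      AR (cW c) ⧸ Subgroup.zpowers (gR (cW c) w)) = C := hp
    obtain ⟨hq1, hq2⟩ : q.2 = v ∧ (QuotientGroup.mk q.1 :
      AR (cW c) ⧸ Subgroup.zpowers (gR (cW c) w)) = C := hq
    have h1 := QuotientGroup.eq.1 (hp2.trans hq2.symm)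
    obtain ⟨n, hn⟩ := Subgroup.mem_zpowers_iff.1 h1
    have h2 : q.1 = p.1 * gR (cW c) w ^ n := by rw [hn]; group
    rw [h2, ← mul_assoc, totg_mul (cW c) _ (gR (cW c) w ^ n), totg_zpow] at he
    have hn0 : n = 0 := by omega
    rw [hn0, zpow_zero, mul_one] at h2
    exact hpq (Prod.ext h2.symm (hp1.trans hq1.symm))
  have hk : ∀ (v : V) (w : Wt), c (.inl v) (.inr w) ≠ 0 → 2 ≤ c (.inl v) (.inr w) := by
    intro v w h
    have := hcr v w
    omega
  refine ⟨?_, ?_, ?_⟩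
  · intro l p n hp hx
    rcases l with g | ⟨⟨⟨v, w⟩, hc⟩, C⟩
    · have h1 : (gR (cV c) p.2 ^ n : AR (cV c)) = 1 := hx
      have h2 := totg_zpow (cV c) p.2 n
      rw [h1, totg_one] at h2
      exact h2.symm
    · exact (h3 _ (hk v w hc)).1 _ n hx
  · intro l p q a b hp hq hpq hx
    rcases l with g | ⟨⟨⟨v, w⟩, hc⟩, C⟩
    · have hp' : p.1 = g := hp
      have hq' : q.1 = g := hq
      have hne : p.2 ≠ q.2 := fun h => hpq (Prod.ext (hp'.trans hq'.symm) h)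
      exact hV.i2 p.2 q.2 a b hne hx
    · exact (h3 _ (hk v w hc)).2.1 _ _ a b (hidx v w hc C p q hp hq hpq) hx
  · intro l p q r a b d hp hq hr hpq hqr hpr hx
    rcases l with g | ⟨⟨⟨v, w⟩, hc⟩, C⟩
    · have hp' : p.1 = g := hp
      have hq' : q.1 = g := hq
      have hr' : r.1 = g := hr
      have n1 : p.2 ≠ q.2 := fun h => hpq (Prod.ext (hp'.trans hq'.symm) h)
      have n2 : q.2 ≠ r.2 := fun h => hqr (Prod.ext (hq'.trans hr'.symm) h)
      have n3 : p.2 ≠ r.2 := fun h => hpr (Prod.ext (hp'.trans hr'.symm) h)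
      exact hV.i3 p.2 q.2 r.2 a b d n1 n2 n3 hx
    · exact (h3 _ (hk v w hc)).2.2 _ _ _ a b d (hidx v w hc C p q hp hq hpq)
        (hidx v w hc C q r hq hr hqr) (hidx v w hc C p r hp hr hpr) hx

end Pool.Agent.H482R3.EB
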