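import Pool.Agent.H482R3.EB.LIFTR

set_option autoImplicit false

namespace Pool.Agent.H482R3.EB

open Pool.Agent.H482R3.EA (W inv ev PP xx evF cond1 cond2 cV cW LIdx Syl gOf iW iV letF valS
  Sys St Near InD Adm Act)

section
variable {V Wt : Type} (c : V ⊕ Wt → V ⊕ Wt → ℕ)

lemma ev_iW {G : Type} [Group G] (f : V ⊕ Wt → G) (u : W Wt) :
    ev f (iW u) = ev (fun w => f (.inr w)) u := by
  simp only [ev, iW, List.map_map]
  rfl

lemma ev_iV {G : Type} [Group G] (f : V ⊕ Wt → G) (u : W V) :
    ev f (iV u) = ev (fun v => f (.inl v)) u := by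
  simp only [ev, iV, List.map_map]
  rfl

lemma prod_one_map {G S : Type} [Group G] (l : List S) :
    (l.map (fun _ => (1 : G))).prod = 1 := by
  simp

end

theorem t_RETJ : S_RETJ := by
  intro V Wt c
  obtain ⟨hR0, hJ0⟩ := t_RELR
  obtain ⟨rV, rW, rX⟩ := hJ0 V Wt c
  constructor
  · intro u
    constructor
    · intro h
      obtain ⟨φ, hφ, hev⟩ := t_LIFTR Wt (AJ c) inferInstance (cW c) (fun w => gJ c (.inr w)) rW
      have h2 := hev u
      unfold TR at h
      rw [h, map_one] at h2
      unfold TJ
      rw [ev_iW]
      exact h2.symm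
    · intro h
      obtain ⟨φ, hφ, hev⟩ := t_LIFTJ V Wt (AR (cW c)) inferInstance c
        (Sum.elim (fun _ => 1) (fun w => gR (cW c) w))
        (by intro s t _ _; simp)
        (by
          intro s t hst hm
          exact hR0 Wt (cW c) s t hst hm)
        (by intro v w _; simp)
      have h2 := hev (iW u)
      unfold TJ at h
      rw [h, map_one, ev_iW] at h2
      unfold TR
      exact h2.symm
  · intro u
    constructor
    · intro h
      obtain ⟨φ, hφ, hev⟩ := t_LIFTR V (AJ c) inferInstance (cV c) (fun w => gJ c (.inl w)) rV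
      have h2 := hev u
      unfold TR at h
      rw [h, map_one] at h2
      unfold TJ
      rw [ev_iV]
      exact h2.symm
    · intro h
      obtain ⟨φ, hφ, hev⟩ := t_LIFTJ V Wt (AR (cV c)) inferInstance c
        (Sum.elim (fun v => gR (cV c) v) (fun _ => 1))
        (by
          intro s t hst hm
          exact hR0 V (cV c) s t hst hm)
        (by intro s t _ _; simp)
        (by intro v w _; simp)
      have h2 := hev (iV u)
      unfold TJ at h
      rw [h, map_one, ev_iV] at h2
      unfold TR
      exact h2.symm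

end Pool.Agent.H482R3.EB
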