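import Pool.Agent.H482R3.EB.TOT

set_option autoImplicit false
set_option linter.unusedSectionVars false

/-! Project EA, task RUN: the word of a syllable acts like the syllable (helper605). -/

namespace Pool.Agent.H482R3.EB.RUN

open Pool.Agent.H482R3.EB
open Pool.Agent.H482R3.EA (W inv ev PP xx evF cond1 cond2 cV cW LIdx Syl gOf iW iV letF valS
  Sys St Near InD Adm Act)

section

variable {V Wt : Type} (c : V ⊕ Wt → V ⊕ Wt → ℕ)
  (h : SysOK c) (A : Act (sysB c h))

/-- the sign of a letter -/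
def sg {G : Type} [Group G] (x : G) (b : Bool) : G := if b then x else x⁻¹

lemma sg_eq {G : Type} [Group G] (x : G) (b : Bool) : sg x b = x ^ (if b then (1 : ℤ) else -1) := by
  cases b <;> simp [sg]

/-- action of the line `B_g` -/
noncomputable def aB (ω : A.Ω) (g : AR (cW c)) (y : AR (cV c)) : A.Ω :=
  A.act ω (Sum.inl g : LnB c) y

/-- action of the line `(v, w, C)` -/
noncomputable def aL (ω : A.Ω) (v : V) (w : Wt) (hc : c (.inl v) (.inr w) ≠ 0)
    (C : AR (cW c) ⧸ Subgroup.zpowers (gR (cW c) w))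
    (y : FreeGroup (Fin (c (.inl v) (.inr w)))) : A.Ω :=
  A.act ω (Sum.inr ⟨(⟨(v, w), hc⟩ : LIdx c), C⟩ : LnB c) y

lemma aB_one (ω : A.Ω) (g : AR (cW c)) : aB c h A ω g 1 = ω := A.act_one ω _

lemma aB_mul (ω : A.Ω) (g : AR (cW c)) (y y' : AR (cV c)) :
    aB c h A (aB c h A ω g y) g y' = aB c h A ω g (y * y') :=
  A.act_mul ω (Sum.inl g : LnB c) y y'

lemma aL_one (ω : A.Ω) (v : V) (w : Wt) (hc : c (.inl v) (.inr w) ≠ 0) (C) :
    aL c h A ω v w hc C 1 = ω := A.act_one ω _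

lemma aL_mul (ω : A.Ω) (v : V) (w : Wt) (hc : c (.inl v) (.inr w) ≠ 0) (C) (y y') :
    aL c h A (aL c h A ω v w hc C y) v w hc C y' = aL c h A ω v w hc C (y * y') :=
  A.act_mul ω (Sum.inr ⟨(⟨(v, w), hc⟩ : LIdx c), C⟩ : LnB c) y y'

lemma aB_eq_aL (ω : A.Ω) (v : V) (w : Wt) (hc : c (.inl v) (.inr w) ≠ 0) (g : AR (cW c))
    (b : Bool) :
    aB c h A ω g (sg (gR (cV c) v) b) =
      aL c h A ω v w hc (QuotientGroup.mk g)
        (sg (xx _ (totg (cW c) ((QuotientGroup.mk g :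
          AR (cW c) ⧸ Subgroup.zpowers (gR (cW c) w)).out⁻¹ * g))) b) := by
  have := A.act_pt ω (Sum.inl g : LnB c)
    (Sum.inr ⟨(⟨(v, w), hc⟩ : LIdx c), QuotientGroup.mk g⟩ : LnB c)
    ((g, v) : PB c) (if b then (1 : ℤ) else -1) rfl ⟨rfl, rfl⟩
  rw [sg_eq, sg_eq]
  exact this

lemma stepB_inl (ω : A.Ω) (g : AR (cW c)) (v : V) (b : Bool) :
    stepB c h A (ω, g) (.inl v, b) = (aB c h A ω g (sg (gR (cV c) v) b), g) := rfl

lemma stepB_inr (ω : A.Ω) (g : AR (cW c)) (w : Wt) (b : Bool) :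
    stepB c h A (ω, g) (.inr w, b) = (ω, g * sg (gR (cW c) w) b) := rfl

lemma runB_nil (x : A.Ω × AR (cW c)) : runB c h A [] x = x := rfl

lemma runB_cons (a : (V ⊕ Wt) × Bool) (u : W (V ⊕ Wt)) (x : A.Ω × AR (cW c)) :
    runB c h A (a :: u) x = runB c h A u (stepB c h A x a) := rfl

lemma runB_append (u u' : W (V ⊕ Wt)) (x : A.Ω × AR (cW c)) :
    runB c h A (u ++ u') x = runB c h A u' (runB c h A u x) := by
  simp [runB, List.foldl_append]

lemma ev_cons {S G : Type} [Group G] (f : S → G) (a : S × Bool) (u : W S) :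
    ev f (a :: u) = sg (f a.1) a.2 * ev f u := by
  simp [ev, sg]

lemma ev_nil {S G : Type} [Group G] (f : S → G) : ev f ([] : W S) = 1 := rfl

lemma run_iW (u : W Wt) (ω : A.Ω) (g : AR (cW c)) :
    runB c h A (iW u) (ω, g) = (ω, g * gEl c u) := by
  induction u generalizing g with
  | nil => simp [iW, runB_nil, gEl, ev_nil]
  | cons a u ih =>
    have : (iW (a :: u) : W (V ⊕ Wt)) = (.inr a.1, a.2) :: iW u := rfl
    rw [this, runB_cons, stepB_inr, ih, gEl, gEl, ev_cons, mul_assoc]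

lemma run_iV (y : W V) (ω : A.Ω) (g : AR (cW c)) :
    runB c h A (iV y) (ω, g) = (aB c h A ω g (ev (gR (cV c)) y), g) := by
  induction y generalizing ω with
  | nil => simp [iV, runB_nil, ev_nil, aB_one]
  | cons a u ih =>
    have : (iV (a :: u) : W (V ⊕ Wt)) = (.inl a.1, a.2) :: iV u := rfl
    rw [this, runB_cons, stepB_inl, ih, aB_mul, ev_cons]

lemma inv_iW (u : W Wt) : (inv (iW u) : W (V ⊕ Wt)) = iW (inv u) := by
  simp [inv, iW, List.map_reverse, List.map_map, Function.comp_def]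

lemma run_invW (hV : EA.S_EV) (u : W Wt) (ω : A.Ω) (g : AR (cW c)) :
    runB c h A (inv (iW u)) (ω, g) = (ω, g * (gEl c u)⁻¹) := by
  rw [inv_iW, run_iW, gEl, (hV Wt (AR (cW c)) _ (gR (cW c))).2.1]
  rfl

lemma run_repV (n : ℕ) (v : V) (b : Bool) (ω : A.Ω) (g : AR (cW c)) :
    runB c h A (List.replicate n (.inl v, b)) (ω, g) =
      (aB c h A ω g (sg (gR (cV c) v) b ^ n), g) := by
  induction n generalizing ω with
  | zero => simp [runB_nil, aB_one]
  | succ n ih => rw [List.replicate_succ, runB_cons, stepB_inl, ih, aB_mul, pow_succ']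

lemma run_repW (n : ℕ) (w : Wt) (b : Bool) (ω : A.Ω) (g : AR (cW c)) :
    runB c h A (List.replicate n (.inr w, b)) (ω, g) =
      (ω, g * sg (gR (cW c) w) b ^ n) := by
  induction n generalizing g with
  | zero => simp [runB_nil]
  | succ n ih => rw [List.replicate_succ, runB_cons, stepB_inr, ih, pow_succ', mul_assoc]

lemma run_let (k : ℕ) (v : V) (w : Wt) (a : ℕ × Bool) (ω : A.Ω) (g : AR (cW c)) :
    runB c h A (letF k v w a) (ω, g) =
      (aB c h A ω (g * gR (cW c) w ^ (a.1 % k)) (sg (gR (cV c) v) a.2), g) := by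
  rw [letF, runB_append, runB_append, run_repW, runB_cons, runB_nil, stepB_inl, run_repW]
  simp [sg, mul_assoc]

lemma aB_let (hG : S_TOT) (v : V) (w : Wt) (hc : c (.inl v) (.inr w) ≠ 0) (n : ℕ) (b : Bool)
    (ω : A.Ω) (g : AR (cW c)) :
    aB c h A ω (g * gR (cW c) w ^ n) (sg (gR (cV c) v) b) =
      aL c h A ω v w hc (QuotientGroup.mk g)
        (sg (xx _ ((n : ℤ) + totg (cW c) ((QuotientGroup.mk g :
          AR (cW c) ⧸ Subgroup.zpowers (gR (cW c) w)).out⁻¹ * g))) b) := by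
  have h1 := aB_eq_aL c h A ω v w hc (g * gR (cW c) w ^ n) b
  have h2 : (QuotientGroup.mk (g * gR (cW c) w ^ n) :
      AR (cW c) ⧸ Subgroup.zpowers (gR (cW c) w)) = QuotientGroup.mk g := by
    rw [eq_comm, QuotientGroup.eq]
    refine ⟨(n : ℤ), ?_⟩
    simp
  have h3 : totg (cW c) ((QuotientGroup.mk g :
          AR (cW c) ⧸ Subgroup.zpowers (gR (cW c) w)).out⁻¹ * (g * gR (cW c) w ^ n)) =
      (n : ℤ) + totg (cW c) ((QuotientGroup.mk g :
          AR (cW c) ⧸ Subgroup.zpowers (gR (cW c) w)).out⁻¹ * g) := by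
    have := totg_zpow (cW c) w (n : ℤ)
    rw [zpow_natCast] at this
    rw [← mul_assoc, totg_mul, this, add_comm]
  rw [h1, h2, h3]

lemma run_line (hG : S_TOT) (v : V) (w : Wt) (hc : c (.inl v) (.inr w) ≠ 0) (y : W ℕ)
    (ω : A.Ω) (g : AR (cW c)) :
    runB c h A (y.flatMap (letF (c (.inl v) (.inr w)) v w)) (ω, g) =
      (aL c h A ω v w hc (QuotientGroup.mk g)
        (ev (fun r : ℕ => xx (c (.inl v) (.inr w)) (((r % c (.inl v) (.inr w) : ℕ) : ℤ) +
            totg (cW c) (((QuotientGroup.mk g :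
              AR (cW c) ⧸ Subgroup.zpowers (gR (cW c) w)).out)⁻¹ * g))) y), g) := by
  induction y generalizing ω with
  | nil => simp [runB_nil, ev_nil, aL_one]
  | cons a u ih =>
    rw [List.flatMap_cons, runB_append, run_let, aB_let c h A hG v w hc, ih, aL_mul, ev_cons]

end

theorem t_RUNB (hG : S_TOT) (hV : EA.S_EV) : S_RUNB := by
  intro V Wt c _ h A a ω ha
  rcases a with ⟨g, v, b, n⟩ | ⟨g, y⟩ | ⟨g, v, w, y⟩
  · rw [valS, runB_append, runB_append, run_iW, run_repV, run_invW c h A hV, one_mul,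
      mul_inv_cancel]
    rfl
  · rw [valS, runB_append, runB_append, run_iW, run_iV, run_invW c h A hV, one_mul,
      mul_inv_cancel]
    rfl
  · have hc : c (.inl v) (.inr w) ≠ 0 := ha
    rw [valS, runB_append, runB_append, run_iW, run_line c h A hG v w hc, run_invW c h A hV,
      one_mul, mul_inv_cancel]
    have e : lyO c (.inr (.inr (g, v, w, y))) =
        ⟨(Sum.inr ⟨(⟨(v, w), hc⟩ : LIdx c), QuotientGroup.mk (gEl c g)⟩ : LnB c),
          (ev (fun r : ℕ => xx (c (.inl v) (.inr w)) (((r % c (.inl v) (.inr w) : ℕ) : ℤ) +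
            totg (cW c) (((QuotientGroup.mk (gEl c g) :
              AR (cW c) ⧸ Subgroup.zpowers (gR (cW c) w)).out)⁻¹ * gEl c g))) y :
            FreeGroup (Fin (c (.inl v) (.inr w))))⟩ := dif_pos hc
    rw [e]
    rfl

end Pool.Agent.H482R3.EB.RUN
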