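import Pool.Agent.H482R3.EB.TOT

set_option autoImplicit false

/-! Project EA, task SEM1 (helper616). -/

namespace Pool.Agent.H482R3.EB.SEM1

open Pool.Agent.H482R3.EB
open Pool.Agent.H482R3.EA (W inv ev PP xx evF cond1 cond2 cV cW LIdx Syl gOf iW iV letF valS
  Sys St Near InD Adm Act)

lemma triv1 (hV : EA.S_EV) {S : Type} (m : S → S → ℕ) (y : W S) (v : S)
    (a : ℤ) (hy : ev (gR m) y = gR m v ^ a) : TR m (y ++ wp v (-a)) := by
  unfold TR
  rw [(hV S _ _ (gR m)).1, (t_WPW S _ _ (gR m) v (-a)).1, hy]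
  group

lemma triv2 (hV : EA.S_EV) {S : Type} (m : S → S → ℕ) (y : W S)
    (v v' : S) (a b : ℤ) (hy : ev (gR m) y = gR m v ^ a * gR m v' ^ b) :
    TR m (wp v (-a) ++ y ++ wp v' (-b)) := by
  unfold TR
  rw [(hV S _ _ (gR m)).1, (hV S _ _ (gR m)).1, (t_WPW S _ _ (gR m) v (-a)).1,
    (t_WPW S _ _ (gR m) v' (-b)).1, hy]
  group

theorem t_SEM1B (hD : S_DICB) (hS : EA.S_XS) (hV : EA.S_EV) : S_SEM1B := by
  intro V Wt c hX h A s a ω hs hA hω
  rcases a with ⟨g, v, b, n⟩ | ⟨g, y⟩ | ⟨g, v, w, y⟩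
  · -- point syllables
    refine ⟨trivial, ?_⟩
    obtain ⟨hn, hN⟩ := hA
    rw [(hD V Wt c h s g v hs).1] at hN
    rw [← hω] at hN
    have key := A.st_pt ω (Sum.inl (gEl c g) : LnB c) ((gEl c g, v) : PB c)
      (if b then (n : ℤ) else -(n : ℤ)) (by change (gEl c g) = gEl c g; rfl)
      (by split_ifs <;> omega) hN
    have e : (lyO c (.inl (g, v, b, n) : Syl V Wt)) = ⟨(Sum.inl (gEl c g) : LnB c),
        ((gR (cV c) v) ^ (if b then (n : ℤ) else -(n : ℤ)) : AR (cV c))⟩ := by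
      unfold lyO
      cases b
      · simp
      · simp
    rw [e]
    exact key
  · -- block syllables
    refine ⟨trivial, ?_⟩
    obtain ⟨hI, hc⟩ := hA
    rcases hc with ⟨hc1, hc2⟩ | ⟨v, hc1, hc2⟩
    · obtain ⟨⟨g0, v0⟩, hp0⟩ := h.Λ0 (Sum.inl (gEl c g) : LnB c)
      rw [(hD V Wt c h s g v0 hs).2.1] at hI
      rw [← hω] at hI
      have key := A.st_ln ω (Sum.inl (gEl c g) : LnB c) (ev (gR (cV c)) y : AR (cV c)) hI
      refine key ?_ ?_
      · rintro ⟨g', v'⟩ hq hN
        change g' = gEl c g at hq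
        subst hq
        apply hc1 v'
        rw [(hD V Wt c h s g v' hs).1, ← hω]
        exact hN
      · rintro ⟨g', v'⟩ a hr hy
        change ev (gR (cV c)) y = gR (cV c) v' ^ a at hy
        exact hc2 v' _ (triv1 hV _ y v' _ hy)
    · rw [(hD V Wt c h s g v hs).2.1] at hI
      rw [(hD V Wt c h s g v hs).1] at hc1
      rw [← hω] at hI hc1
      have key := A.st_ln' ω (Sum.inl (gEl c g) : LnB c) (ev (gR (cV c)) y : AR (cV c))
        ((gEl c g, v) : PB c) hI (by change (gEl c g) = gEl c g; rfl) hc1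
      refine key ?_
      rintro ⟨g', v'⟩ a b hr hy
      change g' = gEl c g at hr
      change ev (gR (cV c)) y = gR (cV c) v ^ a * gR (cV c) v' ^ b at hy
      exact hc2 v' _ _ (triv2 hV _ y v v' a b hy)
  · obtain ⟨hk, hI, hc⟩ := hA
    refine ⟨hk, ?_⟩
    have hk2 : 0 < c (.inl v) (.inr w) := Nat.pos_of_ne_zero hk
    -- the line
    set l : LnB c := Sum.inr ⟨(⟨(v, w), hk⟩ : LIdx c), QuotientGroup.mk (gEl c g)⟩ with hl
    set d : ℤ := totg (cW c) (((QuotientGroup.mk (gEl c g) :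
              AR (cW c) ⧸ Subgroup.zpowers (gR (cW c) w)).out)⁻¹ * gEl c g) with hd
    have e : lyO c (.inr (.inr (g, v, w, y)) : Syl V Wt) = ⟨l,
          (ev (fun r : ℕ => xx (c (.inl v) (.inr w)) (((r % c (.inl v) (.inr w) : ℕ) : ℤ) + d)) y :
            FreeGroup (Fin (c (.inl v) (.inr w))))⟩ := by
      unfold lyO
      exact dif_pos hk
    have e2 : stO c h (some (.inr (.inr (g, v, w, y)) : Syl V Wt)) = .ln l := by
      unfold stO
      exact dif_pos hk
    rw [e, e2]
    obtain ⟨σ, hσ⟩ := hS (c (.inl v) (.inr w)) d hk2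
    have hy : (ev (fun r : ℕ => xx (c (.inl v) (.inr w))
        (((r % c (.inl v) (.inr w) : ℕ) : ℤ) + d)) y :
            FreeGroup (Fin (c (.inl v) (.inr w)))) = σ (evF (c (.inl v) (.inr w)) y) := by
      unfold evF
      rw [show σ (ev (fun r : ℕ => xx (c (.inl v) (.inr w)) ((r % c (.inl v) (.inr w) : ℕ) : ℤ)) y)
        = σ.toMonoidHom (ev (fun r : ℕ => xx (c (.inl v) (.inr w))
          ((r % c (.inl v) (.inr w) : ℕ) : ℤ)) y) from rfl, map_ev]
      congr 1
      funext r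
      exact (hσ _).symm
    rw [hy]
    -- points of the line
    have hpt : ∀ i : ℤ, xB c l ((gEl c g * gR (cW c) w ^ i, v) : PB c) =
        xx (c (.inl v) (.inr w)) (d + i) := by
      intro i
      change xx (c (.inl v) (.inr w)) (totg (cW c) (((QuotientGroup.mk (gEl c g) :
              AR (cW c) ⧸ Subgroup.zpowers (gR (cW c) w)).out)⁻¹ *
              (gEl c g * gR (cW c) w ^ i))) = _
      rw [← mul_assoc, totg_mul, totg_zpow]
    have hpt2 : ∀ r : PB c, IB c r l → ∃ i : ℤ, xB c l r = xx (c (.inl v) (.inr w)) (i + d) := by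
      rintro ⟨g', v'⟩ ⟨hv', hg'⟩
      change v' = v at hv'
      subst hv'
      change (QuotientGroup.mk g' : AR (cW c) ⧸ Subgroup.zpowers (gR (cW c) w)) =
        QuotientGroup.mk (gEl c g) at hg'
      rw [eq_comm, QuotientGroup.eq] at hg'
      obtain ⟨i, hi⟩ := hg'
      have hi' : g' = gEl c g * gR (cW c) w ^ i := by
        have : gR (cW c) w ^ i = (gEl c g)⁻¹ * g' := hi
        rw [this]
        group
      refine ⟨i, ?_⟩
      rw [hi', hpt i, add_comm]
    have hone : ∀ i a : ℤ, σ (evF (c (.inl v) (.inr w)) y) =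
        (xx (c (.inl v) (.inr w)) (i + d)) ^ a →
        evF (c (.inl v) (.inr w)) y = (xx (c (.inl v) (.inr w)) i) ^ a := by
      intro i a h3
      rw [← hσ, ← map_zpow] at h3
      exact σ.injective h3
    have htwo : ∀ j i a b : ℤ, σ (evF (c (.inl v) (.inr w)) y) =
        (xx (c (.inl v) (.inr w)) (j + d)) ^ a * (xx (c (.inl v) (.inr w)) (i + d)) ^ b →
        evF (c (.inl v) (.inr w)) y =
          (xx (c (.inl v) (.inr w)) j) ^ a * (xx (c (.inl v) (.inr w)) i) ^ b := by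
      intro j i a b h3
      rw [← hσ, ← hσ, ← map_zpow, ← map_zpow, ← map_mul] at h3
      exact σ.injective h3
    have hgw : ∀ j : ℤ, gEl c (g ++ wp w j) = gEl c g * gR (cW c) w ^ j := by
      intro j
      unfold gEl
      rw [(hV Wt _ _ (gR (cW c))).1, (t_WPW Wt _ _ (gR (cW c)) w j).1]
    rw [(hD V Wt c h s g v hs).2.2 w hk, ← hω] at hI
    rcases hc with ⟨hc1, hc2⟩ | ⟨j0, hc1, hc2⟩
    · have key := A.st_ln ω l (σ (evF (c (.inl v) (.inr w)) y)) hI
      refine key ?_ ?_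
      · rintro ⟨g', v'⟩ hq hN
        obtain ⟨hv', hg'⟩ := hq
        change v' = v at hv'
        subst hv'
        change (QuotientGroup.mk g' : AR (cW c) ⧸ Subgroup.zpowers (gR (cW c) w)) =
          QuotientGroup.mk (gEl c g) at hg'
        rw [eq_comm, QuotientGroup.eq] at hg'
        obtain ⟨i, hi⟩ := hg'
        have hi' : g' = gEl c g * gR (cW c) w ^ i := by
          have : gR (cW c) w ^ i = (gEl c g)⁻¹ * g' := hi
          rw [this]
          group
        apply hc1 i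
        rw [(hD V Wt c h s (g ++ wp w i) v' hs).1, ← hω, hgw, ← hi']
        exact hN
      · intro r a hr hyy
        obtain ⟨i, hi⟩ := hpt2 r hr
        change σ (evF (c (.inl v) (.inr w)) y) = xB c l r ^ a at hyy
        have h3 : σ (evF (c (.inl v) (.inr w)) y) = (xx (c (.inl v) (.inr w)) (i + d)) ^ a :=
          hyy.trans (congrArg (fun z : LB c l => z ^ a) hi)
        exact hc2 i a (hone i a h3)
    · obtain ⟨j, hc1, hc2⟩ : ∃ j : ℤ, NearW c (g ++ wp w j) v s ∧
          cond2 (c (.inl v) (.inr w)) j y := ⟨_, hc1, hc2⟩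
      have hN := (hD V Wt c h s (g ++ wp w j) v hs).1.1 hc1
      rw [← hω, hgw] at hN
      have key := A.st_ln' ω l (σ (evF (c (.inl v) (.inr w)) y))
        ((gEl c g * gR (cW c) w ^ j, v) : PB c) hI ⟨rfl, by
          change (QuotientGroup.mk _ : AR (cW c) ⧸ Subgroup.zpowers (gR (cW c) w)) =
            QuotientGroup.mk (gEl c g)
          rw [eq_comm, QuotientGroup.eq, inv_mul_cancel_left]
          exact ⟨_, rfl⟩⟩ hN
      refine key ?_
      intro r a b hr hyy
      obtain ⟨i, hi⟩ := hpt2 r hr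
      have h4 := hpt (j)
      have h3 : σ (evF (c (.inl v) (.inr w)) y) =
          (xx (c (.inl v) (.inr w)) (d + j)) ^ a *
            (xx (c (.inl v) (.inr w)) (i + d)) ^ b :=
        hyy.trans (congrArg₂ (fun z z' : LB c l => z ^ a * z' ^ b) h4 hi)
      rw [add_comm d] at h3
      exact hc2 i a b (htwo _ i a b h3)

end Pool.Agent.H482R3.EB.SEM1
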