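import Pool.Agent.H482R3.EB.GEO
import Pool.Agent.H482R3.EB.COC

set_option autoImplicit false

namespace Pool.Agent.H482R3.EB

theorem t_TAME : S_TAME := by
  intro S m hs h1
  obtain ⟨H, _, f, hf2, hfb, hfi⟩ := t_GEO S m hs h1
  exact t_COC S H inferInstance m f hf2 hfb hfi

end Pool.Agent.H482R3.EB
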