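import Pool.Agent.H482R3.EB.TOT
import Pool.Agent.H482R3.EB.Cen

set_option autoImplicit false

namespace Pool.Agent.H482R3.EB.VALB

open Pool.Agent.H482R3.EB
open Pool.Agent.H482R3.EA (W inv ev PP xx evF cond1 cond2 cV cW LIdx Syl gOf iW iV letF valS
  Sys St Near InD Adm Act)

theorem vala_ev_cons {S G : Type} [Group G] (f : S → G) (a : S × Bool) (u : W S) :
    ev f (a :: u) = (if a.2 then f a.1 else (f a.1)⁻¹) * ev f u := by
  simp [ev]

theorem t_VALB (hF : S_PHI) : S_VALB := by
  intro V Wt c hC h A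
  obtain ⟨F⟩ := hF V Wt c
  obtain ⟨v, hv1, hv2⟩ := A.val (AJ c) F.φ
    (fun p : PB c => F.ι p.1 * gJ c (.inl p.2) * (F.ι p.1)⁻¹) F.hx
  refine ⟨fun x => v x.1 * F.ι x.2, by show v A.one * F.ι 1 = 1; rw [hv1, map_one, mul_one], ?_⟩
  have hstep : ∀ (x : A.Ω × AR (cW c)) (a : (V ⊕ Wt) × Bool),
      v (stepB c h A x a).1 * F.ι (stepB c h A x a).2 =
        v x.1 * F.ι x.2 * (if a.2 then gJ c a.1 else (gJ c a.1)⁻¹) := by
    rintro ⟨ω, g⟩ ⟨s | s, b⟩
    · show v (A.act ω (Sum.inl g : LnB c)
        (if b then gR (cV c) s else (gR (cV c) s)⁻¹ : AR (cV c))) * F.ι g = _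
      refine (congrArg (· * F.ι g) (hv2 ω (Sum.inl g : LnB c) _)).trans ?_
      have e : F.φ (.inl g) (if b then gR (cV c) s else (gR (cV c) s)⁻¹ : AR (cV c)) =
          F.ι g * (if b then gJ c (.inl s) else (gJ c (.inl s))⁻¹) * (F.ι g)⁻¹ := by
        cases b
        · simp only [Bool.false_eq_true, if_false]
          have e1 : F.φ (.inl g) ((gR (cV c) s)⁻¹ : AR (cV c)) =
              (F.φ (.inl g) (gR (cV c) s : AR (cV c)))⁻¹ := map_inv _ _
          rw [e1, F.hB]
          group
        · simp only [if_true]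
          rw [F.hB]
      show v ω * F.φ (.inl g) (if b then gR (cV c) s else (gR (cV c) s)⁻¹ : AR (cV c)) * F.ι g =
        v ω * F.ι g * (if b then gJ c (.inl s) else (gJ c (.inl s))⁻¹)
      rw [e]
      group
    · show v ω * F.ι (g * if b then gR (cW c) s else (gR (cW c) s)⁻¹) =
        v ω * F.ι g * (if b then gJ c (.inr s) else (gJ c (.inr s))⁻¹)
      have e : F.ι (if b then gR (cW c) s else (gR (cW c) s)⁻¹) =
          (if b then gJ c (.inr s) else (gJ c (.inr s))⁻¹) := by
        cases b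
        · simp only [Bool.false_eq_true, if_false]
          rw [map_inv, F.hι]
        · simp only [if_true]
          rw [F.hι]
      rw [map_mul, e, mul_assoc]
  intro u
  induction u with
  | nil =>
    intro x
    show v x.1 * F.ι x.2 = v x.1 * F.ι x.2 * 1
    rw [mul_one]
  | cons a u ih =>
    intro x
    have h1 := ih (stepB c h A x a)
    have h2 : runB c h A (a :: u) x = runB c h A u (stepB c h A x a) := rfl
    rw [h2]
    refine h1.trans ?_
    show v (stepB c h A x a).1 * F.ι (stepB c h A x a).2 * ev (gJ c) u = _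
    rw [hstep, vala_ev_cons, mul_assoc]

end Pool.Agent.H482R3.EB.VALB
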