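import Pool.Agent.H482R3.EB.PartI
import Pool.Agent.H482R3.EB.TAME
import Pool.Agent.H482R3.EB.RETJ
import Pool.Agent.H482R3.EB.SUR
import Pool.Agent.H482R3.EB.DICB
import Pool.Agent.H482R3.EB.LXB
import Pool.Agent.H482R3.EB.RUN
import Pool.Agent.H482R3.EB.CERT
import Pool.Agent.H482R3.EB.SEM1
import Pool.Agent.H482R3.EB.VALB
import Pool.Agent.H482R3.EB.ACTB
import Pool.Agent.H127R2.EA.EV
import Pool.Agent.H127R2.EA.BS
import Pool.Agent.H127R2.EA.CH
import Pool.Agent.H514R.EA.BD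
import Pool.Agent.H36R2.EA.FW
import Pool.Agent.H545R3.EA.FR
import Pool.Agent.H347R.EA.CP
import Pool.Agent.H339R3.EA.C1
import Pool.Agent.H75R6.EA.C2
import Pool.Agent.H334R2.EA.REX
import Pool.Agent.H51R5.EA.REC
import Pool.Agent.H816R2.EAVCOMP
import Pool.Agent.H894R2.EA.SPL
import Pool.Agent.H708R4.EA.SYSB
import Pool.Agent.H482R3.EC.PHI
import Pool.Agent.H482R3.EC.SEM2B
import Pool.Agent.H482R3.EC.BASB
import Pool.Agent.H482R3.EC.NEARB
import Pool.Agent.H482R3.EC.INDB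
import Pool.Agent.H248.EB_NBD
import Pool.Agent.H231R2.EB.VBD
import Pool.Agent.H482R3.EC.ADM2
import Pool.Agent.H482R3.EC.FPRE
import Pool.Agent.H482R3.EC.REB
import Pool.Agent.H482R3.EC.ADMB
import Pool.Agent.H482R3.EC.STEPB
import Pool.Agent.H482R3.EC.ARTR
import Pool.Agent.H48R2.EB.RENUM
import Pool.Agent.H482R3.EC.DIHB
import Pool.Agent.H325R.EB.FINALB
import Pool.Agent.H482R3.EB.GGB
import Pool.Agent.H482R3.EB.Cls2
import Pool.Agent.H482R3.EC.ADM3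
import Pool.Agent.H482R3.EC.PRODB

set_option autoImplicit false

/-! Project EB: assembly of the combination theorem. -/

namespace Pool.Agent.H482R3.EB.Asm

open Pool.Agent.H482R3.EB

theorem ev : EA.S_EV := Pool.Agent.H127R2.EA.t_EV
theorem bs : EA.S_BS := Pool.Agent.H127R2.EA.t_BS
theorem ch : EA.S_CH := Pool.Agent.H127R2.EA.t_CH
theorem cp : EA.S_CP := Pool.Agent.H347R.EA.t_CP
theorem bd : EA.S_BD := Pool.Agent.H514R.EA.t_BD xx
theorem fw : EA.S_FW := Pool.Agent.H482R3.EA.t_FW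
theorem fr : EA.S_FR := Pool.Agent.H545R3.EA.t_FR fw xx
theorem c1 : EA.S_C1 := Pool.Agent.H339R3.EA.t_C1 bd fr xx bs cp
theorem c2 : EA.S_C2 := Pool.Agent.H75R6.EA.t_C2 bd fr xx bs
theorem rex : EA.S_REX := Pool.Agent.H334R2.EA.t_REX
theorem rec' : EA.S_REC := Pool.Agent.H51R5.EA.t_REC
theorem vcomp : EA.S_VCOMP := Pool.Agent.H816R2.EA.t_VCOMP
theorem spl : EA.S_SPL := Pool.Agent.H894R2.EA.t_SPL

theorem ggb : S_GGB := GGB.t_GGB
theorem lxb : S_LXB := t_LXB x3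
theorem sysb : S_SYSB := t_SYSB ggb lxb
theorem actb : S_ACTB := ACTB.t_ACTB xx t_TOT t_RELR
theorem phi : S_PHI := Pool.Agent.H16R2.EB.t_PHI xh xx t_TOT t_LIFTR t_RELR
theorem valb : S_VALB := VALB.t_VALB phi
theorem dicb : S_DICB := t_DICB ev
theorem sem1b : S_SEM1B := SEM1.t_SEM1B dicb xs ev
theorem sem2b : S_SEM2B := Pool.Agent.H338R.EB.SEM2B.t_SEM2B dicb xs xx ev t_TOT t_WPW t_SUR
theorem runb : S_RUNB := RUN.t_RUNB t_TOT ev
theorem certb : S_CERTB := CERT.t_CERTB nft sysb actb valb sem1b sem2b runb ev t_SUR t_RETJ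
theorem basb : S_BASB := Pool.Agent.H338R.EB.BASB.t_BASB
theorem nearb : S_NEARB := Pool.Agent.H676R2.EBNEARB.t_NEARB basb cp
theorem indb : S_INDB := Pool.Agent.H676R2.EBINDB.t_INDB basb cp
theorem nbd : S_NBD := Pool.Agent.H248.EBNBD.t_NBD t_TOT t_WPW ev
theorem vbd : S_VBD := Pool.Agent.H231R2.EB.t_VBD t_TOT t_WPW ev
theorem adm2 : S_ADM2 := Pool.Agent.H325R.EB.t_ADM2 basb cp nearb indb bs vbd
theorem adm3 : S_ADM3 := Pool.Agent.H180R3.EB.ADM3.t_ADM3 basb cp nearb indb bs nbd c1 c2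
theorem admb : S_ADMB := Pool.Agent.H338R.EB.ADMB.t_ADMB cp nearb adm2 adm3
theorem fpre : S_FPRE := Pool.Agent.H325R.EB.t_FPRE fw rex
theorem reb : S_REB := Pool.Agent.H338R.EB.REB.t_REB fpre
theorem stepb : S_STEPB := Pool.Agent.H806R.EB.t_STEPB certb admb ch reb vcomp rex rec' cp
theorem artr : S_ARTR := Pool.Agent.H131R.EB.t_ARTR t_LIFTR t_RELR
theorem renum : S_RENUM := Pool.Agent.H48R2.EB.t_RENUM t_LIFTR t_LIFTJ t_RELR
theorem finalb : S_FINALB := Pool.Agent.H325R.EB.t_FINALB stepb t_TAME artr renum t_RETJ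
theorem comp : S_COMP := t_COMP finalb spl
theorem dihb : S_DIHB := Pool.Agent.H329R.EA.DIHB.t_DIHB artr fr
theorem prodb : S_PRODB := Pool.Agent.H18R2.EB.t_PRODB t_LIFTR t_RELR artr
theorem built : ∀ (n : ℕ) (M : CoxeterMatrix (Fin n)), Built n M → SolvWP M :=
  t_BUILT finalb prodb dihb

end Pool.Agent.H482R3.EB.Asm
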