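import Pool.Agent.H482R3.EB.Cen
import Pool.Agent.H634R4.EA.REP
import Pool.Agent.H700R2.EA.UPM
import Pool.Agent.H475R.EA.A1
import Pool.Agent.H225R2.EA.UNI
import Pool.Agent.H942R2.EA.A2
import Pool.Agent.H797R2.EA.GEN
import Pool.Agent.H344R3.EA.PTN
import Pool.Agent.H755R.EA.VAL
import Pool.Agent.H976R.EA.NFT
import Pool.Agent.Helper844.EA.STL
import Pool.Agent.H142R2.EA.P1
import Pool.Agent.H940R.EA.A0
import Pool.Agent.H837R3.EA.LS
import Pool.Agent.H320R2.EA.P4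
import Pool.Agent.H755R.EA.XS
import Pool.Agent.H690R6.EA.XH
import Pool.Agent.H466R2.EA.XT
import Pool.Agent.H6R2.EA.XX
import Pool.Agent.H615R2.EA.X3

set_option autoImplicit false

/-! Project EB: assembly of Part I and of the line groups. -/

namespace Pool.Agent.H482R3.EB.Asm

theorem uni : EA.S_UNI := Pool.Agent.H225R2.EA.t_UNI
theorem rep : EA.S_REP := Pool.Agent.H634R4.EA.t_REP
theorem upn : EA.S_UPN := Pool.Agent.H700R2.EA.UPM.t_UPN
theorem upm : EA.S_UPM := Pool.Agent.H700R2.EA.UPM.t_UPM uni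
theorem actn : EA.S_ACTN := Pool.Agent.H700R2.EA.UPM.t_ACTN
theorem ls : EA.S_LS := Pool.Agent.H837R3.EA.t_LS rep uni upn upm
theorem p4 : EA.S_P4 := Pool.Agent.H320R2.EA.t_P4 rep uni upn upm actn ls
theorem a1 : EA.S_A1 := Pool.Agent.H475R.EA.A1.t_A1 p4 actn
theorem a0 : EA.S_A0 := Pool.Agent.H940R.EA.A0.t_A0 rep uni upn upm actn
theorem p1 : EA.S_P1 := Pool.Agent.H142R2.EA.P1.t_P1 rep uni upn upm actn ls
theorem ptn : EA.S_PTN := Pool.Agent.H344R3.EA.t_PTN rep uni upn upm actn a0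
theorem a2 : EA.S_A2 := Pool.Agent.H942R2.EA.A2.t_A2 rep uni upn upm actn a0 ptn
theorem val : EA.S_VAL := Pool.Agent.H755R.EA.t_VAL
theorem stl : EA.S_STL := Pool.Agent.Helper844.EA.t_STL rep uni upn upm actn
theorem gen : EA.S_GEN := Pool.Agent.H797R2.EA.t_GEN rep uni upn upm actn a0 ptn
theorem nft : EA.S_NFT := Pool.Agent.H976R.EA.t_NFT a0 a1 a2 p1 ptn stl gen val

theorem xx : EA.S_XX := Pool.Agent.H6R2.EA.t_XX
theorem xs : EA.S_XS := Pool.Agent.H755R.EA.t_XS xx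
theorem xh : EA.S_XH := Pool.Agent.H690R6.EA.XH.t_XH
theorem xt : EA.S_XT := Pool.Agent.H466R2.EA.t_XT
theorem x3 : EA.S_X3 := Pool.Agent.H482R3.EA.X3.t_X3 xx xt

end Pool.Agent.H482R3.EB.Asm
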