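import Pool.Agent.H482R3.EB.LIFTR

set_option autoImplicit false

namespace Pool.Agent.H482R3.EB

open Pool.Agent.H482R3.EA (W inv ev PP xx evF cond1 cond2 cV cW LIdx Syl gOf iW iV letF valS
  Sys St Near InD Adm Act)

lemma toth_gR {S : Type} (m : S → S → ℕ) (s : S) : toth m (gR m s) = Multiplicative.ofAdd 1 := by
  unfold toth gR
  exact PresentedGroup.toGroup.of _

lemma totg_mul {S : Type} (m : S → S → ℕ) (g g' : AR m) :
    totg m (g * g') = totg m g + totg m g' := by
  unfold totg
  rw [map_mul, toAdd_mul]

lemma totg_inv {S : Type} (m : S → S → ℕ) (g : AR m) : totg m g⁻¹ = - totg m g := by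
  unfold totg
  rw [map_inv, toAdd_inv]

lemma totg_one {S : Type} (m : S → S → ℕ) : totg m (1 : AR m) = 0 := by
  unfold totg
  rw [map_one, toAdd_one]

lemma totg_gR {S : Type} (m : S → S → ℕ) (s : S) : totg m (gR m s) = 1 := by
  unfold totg
  rw [toth_gR]; rfl

lemma totg_zpow {S : Type} (m : S → S → ℕ) (s : S) (n : ℤ) : totg m (gR m s ^ n) = n := by
  unfold totg
  rw [map_zpow, toth_gR, toAdd_zpow]
  simp

lemma tot_append {S : Type} (u u' : W S) : tot (u ++ u') = tot u + tot u' := by
  unfold tot
  rw [List.map_append, List.sum_append]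

lemma tot_inv {S : Type} (u : W S) : tot (inv u) = - tot u := by
  unfold tot inv
  rw [List.map_reverse, List.sum_reverse, List.map_map]
  induction u with
  | nil => simp
  | cons a u ih =>
    rw [List.map_cons, List.sum_cons, List.map_cons, List.sum_cons, ih]
    rcases a with ⟨a, b⟩
    cases b <;> simp <;> ring

lemma totg_ev {S : Type} (m : S → S → ℕ) (u : W S) : totg m (ev (gR m) u) = tot u := by
  induction u with
  | nil => exact totg_one m
  | cons a u ih =>
    have h : ev (gR m) (a :: u) = (if a.2 then gR m a.1 else (gR m a.1)⁻¹) * ev (gR m) u := rfl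
    have h2 : tot (a :: u) = (if a.2 then (1 : ℤ) else -1) + tot u := rfl
    rw [h, h2, totg_mul, ih]
    congr 1
    split
    · exact totg_gR m _
    · rw [totg_inv, totg_gR]

theorem t_TOT : S_TOT := by
  intro S m
  exact ⟨totg_ev m, totg_mul m, totg_inv m, totg_zpow m, tot_append, tot_inv⟩

lemma ev_replicate {S G : Type} [Group G] (f : S → G) (s : S) (n : ℕ) :
    ev f (List.replicate n (s, true)) = f s ^ n ∧
      ev f (List.replicate n (s, false)) = (f s)⁻¹ ^ n := by
  unfold ev
  rw [List.map_replicate, List.map_replicate, List.prod_replicate, List.prod_replicate]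
  simp

lemma tot_replicate {S : Type} (s : S) (n : ℕ) :
    tot (List.replicate n (s, true)) = n ∧ tot (List.replicate n (s, false)) = -(n : ℤ) := by
  unfold tot
  rw [List.map_replicate, List.map_replicate, List.sum_replicate, List.sum_replicate]
  simp

theorem t_WPW : S_WPW := by
  intro S G _ f s n
  unfold wp
  split_ifs with h
  · obtain ⟨k, rfl⟩ := Int.eq_ofNat_of_zero_le h
    refine ⟨?_, ?_, ?_⟩
    · rw [(ev_replicate f s _).1]
      simp
    · rw [(tot_replicate s _).1]
      simp
    · simp
  · push Not at h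
    obtain ⟨k, hk⟩ := Int.eq_ofNat_of_zero_le (show 0 ≤ -n by omega)
    have hn : n = -(k : ℤ) := by omega
    subst hn
    refine ⟨?_, ?_, ?_⟩
    · rw [(ev_replicate f s _).2]
      simp
    · rw [(tot_replicate s _).2]
      simp
    · simp

end Pool.Agent.H482R3.EB
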